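import Mathlib

/-! Elementary bounds for the number of real zeros of polynomial systems. -/

namespace Pool.Agent.H50.PW

open MvPolynomial

set_option linter.unusedSectionVars false

variable {ι : Type*} [Fintype ι] [DecidableEq ι]

/-- evaluation vector of a polynomial on a finite set of points -/
noncomputable def evv (Z : Finset (ι → ℝ)) (p : MvPolynomial ι ℝ) : Z → ℝ :=
  fun z => eval z.1 p

theorem evv_add (Z : Finset (ι → ℝ)) (p q : MvPolynomial ι ℝ) :
    evv Z (p + q) = evv Z p + evv Z q := by
  funext z; simp [evv]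

theorem evv_sum {κ : Type*} (Z : Finset (ι → ℝ)) (s : Finset κ) (p : κ → MvPolynomial ι ℝ) :
    evv Z (∑ k ∈ s, p k) = ∑ k ∈ s, evv Z (p k) := by
  funext z; simp [evv]

/-- reduced exponent vector as a monomial -/
noncomputable def redMon (K : ℕ) (e : ι → Fin K) : MvPolynomial ι ℝ :=
  monomial (Finsupp.equivFunOnFinite.symm (fun i => (e i : ℕ))) 1

theorem monomial_mem_span {K : ℕ} (h : ι → MvPolynomial ι ℝ)
    (hdeg : ∀ i, (h i).totalDegree < K) (Z : Finset (ι → ℝ))
    (hZ : ∀ z ∈ Z, ∀ i, z i ^ K + eval z (h i) = 0) :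
    ∀ n : ℕ, ∀ s : ι →₀ ℕ, s.degree = n →
      evv Z (monomial s (1 : ℝ)) ∈
        Submodule.span ℝ (Set.range fun e : ι → Fin K => evv Z (redMon K e)) := by
  intro n
  induction n using Nat.strong_induction_on with
  | _ n ih =>
    intro s hs
    by_cases hred : ∀ i, s i < K
    · apply Submodule.subset_span
      refine ⟨fun i => ⟨s i, hred i⟩, ?_⟩
      have : Finsupp.equivFunOnFinite.symm (fun i => ((⟨s i, hred i⟩ : Fin K) : ℕ)) = s := by
        ext i; simp
      simp only [redMon, this]
    · push Not at hred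
      obtain ⟨i, hi⟩ := hred
      -- factor out the power
      set s' : ι →₀ ℕ := s - Finsupp.single i K with hs'
      have hss : s = s' + Finsupp.single i K := by
        ext j
        simp only [hs', Finsupp.coe_add, Pi.add_apply, Finsupp.tsub_apply]
        by_cases hj : j = i
        · subst hj; simp; omega
        · simp [Ne.symm hj]
      have hdegs : s'.degree + K = n := by
        rw [← hs, hss, map_add, Finsupp.degree_single]
      have hev : evv Z (monomial s (1 : ℝ)) = evv Z (- (monomial s' (1 : ℝ) * h i)) := by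
        funext z
        have hz := hZ z.1 z.2 i
        have h1 : eval z.1 (monomial s (1 : ℝ)) = eval z.1 (monomial s' (1 : ℝ)) * z.1 i ^ K := by
          have : monomial s (1 : ℝ) = monomial s' (1 : ℝ) * (X i) ^ K := by
            rw [X_pow_eq_monomial, monomial_mul, one_mul, ← hss]
          rw [this, map_mul, map_pow, eval_X]
        simp only [evv, h1, map_neg, map_mul]
        have : z.1 i ^ K = - eval z.1 (h i) := by linarith
        rw [this]; ring
      rw [hev]
      -- expand the product into monomials of smaller degree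
      set q : MvPolynomial ι ℝ := - (monomial s' (1 : ℝ) * h i) with hq
      have hqdeg : q.totalDegree < n := by
        have h1 : q.totalDegree ≤ (monomial s' (1 : ℝ)).totalDegree + (h i).totalDegree := by
          rw [hq, totalDegree_neg]; exact totalDegree_mul _ _
        have h2 : (monomial s' (1 : ℝ)).totalDegree ≤ s'.degree := by
          rw [totalDegree_monomial _ one_ne_zero]
          exact le_of_eq (by rw [Finsupp.degree_eq_sum]; exact (Finsupp.sum_fintype s' (fun _ e => e) (fun _ => rfl)))
        have h3 := hdeg i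
        omega
      have hqs : evv Z q = ∑ t ∈ q.support, (coeff t q) • evv Z (monomial t (1 : ℝ)) := by
        conv_lhs => rw [q.as_sum]
        rw [evv_sum]
        refine Finset.sum_congr rfl fun t _ => ?_
        funext z
        simp [evv, eval_monomial]
      rw [hqs]
      refine Submodule.sum_mem _ fun t ht => Submodule.smul_mem _ _ ?_
      have htd : t.degree < n := by
        have := le_totalDegree ht
        have h4 : t.degree = t.sum fun _ e => e := by
          rw [Finsupp.degree_eq_sum]; exact (Finsupp.sum_fintype t (fun _ e => e) (fun _ => rfl)).symm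
        rw [h4]; omega
      exact ih t.degree htd t rfl

theorem evv_mem_span {K : ℕ} (h : ι → MvPolynomial ι ℝ)
    (hdeg : ∀ i, (h i).totalDegree < K) (Z : Finset (ι → ℝ))
    (hZ : ∀ z ∈ Z, ∀ i, z i ^ K + eval z (h i) = 0) (q : MvPolynomial ι ℝ) :
    evv Z q ∈ Submodule.span ℝ (Set.range fun e : ι → Fin K => evv Z (redMon K e)) := by
  have hqs : evv Z q = ∑ t ∈ q.support, (coeff t q) • evv Z (monomial t (1 : ℝ)) := by
    conv_lhs => rw [q.as_sum]
    rw [evv_sum]
    refine Finset.sum_congr rfl fun t _ => ?_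
    funext z
    simp [evv, eval_monomial]
  rw [hqs]
  exact Submodule.sum_mem _ fun t _ => Submodule.smul_mem _ _
    (monomial_mem_span h hdeg Z hZ t.degree t rfl)

/-- finitely many points are separated by polynomials -/
theorem exists_indicator (Z : Finset (ι → ℝ)) (z₀ : Z) :
    ∃ p : MvPolynomial ι ℝ, evv Z p = Pi.single z₀ 1 := by
  classical
  have sep : ∀ z : Z, z ≠ z₀ → ∃ i, z.1 i ≠ z₀.1 i := by
    intro z hz
    by_contra hcon
    push Not at hcon
    exact hz (Subtype.ext (funext hcon))
  rcases isEmpty_or_nonempty ι with hemp | hne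
  · refine ⟨1, ?_⟩
    funext w
    have hw : w = z₀ := Subtype.ext (Subsingleton.elim _ _)
    subst hw
    simp [evv]
  choose! c hc using sep
  refine ⟨∏ z ∈ (Finset.univ.erase z₀ : Finset Z),
    (C ((z₀.1 (c z) - z.1 (c z))⁻¹) * (X (c z) - C (z.1 (c z)))), ?_⟩
  funext w
  simp only [evv, map_prod, map_mul, eval_C, map_sub, eval_X]
  by_cases hw : w = z₀
  · subst hw
    simp only [Pi.single_eq_same]
    refine Finset.prod_eq_one fun z hz => ?_
    have hz' : z ≠ w := (Finset.mem_erase.mp hz).1
    exact inv_mul_cancel₀ (sub_ne_zero.mpr (Ne.symm (hc z hz')))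
  · rw [Pi.single_eq_of_ne hw]
    refine Finset.prod_eq_zero (i := w) (Finset.mem_erase.mpr ⟨hw, Finset.mem_univ _⟩) ?_
    simp

theorem span_eq_top {K : ℕ} (h : ι → MvPolynomial ι ℝ)
    (hdeg : ∀ i, (h i).totalDegree < K) (Z : Finset (ι → ℝ))
    (hZ : ∀ z ∈ Z, ∀ i, z i ^ K + eval z (h i) = 0) :
    Submodule.span ℝ (Set.range fun e : ι → Fin K => evv Z (redMon K e)) = ⊤ := by
  classical
  rw [eq_top_iff]
  intro f _
  have : f = ∑ z : Z, f z • (Pi.single z (1 : ℝ) : Z → ℝ) := by
    funext w
    simp [Finset.sum_apply, Pi.single_apply]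
  rw [this]
  refine Submodule.sum_mem _ fun z _ => Submodule.smul_mem _ _ ?_
  obtain ⟨p, hp⟩ := exists_indicator Z z
  rw [← hp]
  exact evv_mem_span h hdeg Z hZ p

/-- A system `x_i ^ K + h_i = 0` with `deg h_i < K` has at most `K ^ n` real zeros. -/
theorem card_zeros_le {K : ℕ} (h : ι → MvPolynomial ι ℝ)
    (hdeg : ∀ i, (h i).totalDegree < K) (Z : Finset (ι → ℝ))
    (hZ : ∀ z ∈ Z, ∀ i, z i ^ K + eval z (h i) = 0) :
    Z.card ≤ K ^ Fintype.card ι := by
  classical
  have h1 : Module.finrank ℝ (Z → ℝ) = Z.card := by simp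
  have h2 : Module.finrank ℝ (Submodule.span ℝ
      (Set.range fun e : ι → Fin K => evv Z (redMon K e))) ≤ Fintype.card (ι → Fin K) :=
    finrank_range_le_card _
  rw [span_eq_top h hdeg Z hZ, finrank_top, h1] at h2
  simpa using h2

end Pool.Agent.H50.PW
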