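import Mathlib
import Pool.Agent.H50.PW.Zeros

/-! Nondegenerate zeros of polynomial maps: an elementary finite bound. -/

namespace Pool.Agent.H50.PW

open MvPolynomial Filter Topology

set_option linter.unusedSectionVars false

variable {ι : Type*} [Fintype ι] [DecidableEq ι]

/-- derivative of the evaluation of a polynomial -/
noncomputable def dEval (p : MvPolynomial ι ℝ) (x : ι → ℝ) : (ι → ℝ) →L[ℝ] ℝ :=
  ∑ j, eval x (pderiv j p) • (ContinuousLinearMap.proj j : (ι → ℝ) →L[ℝ] ℝ)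

theorem dEval_apply (p : MvPolynomial ι ℝ) (x y : ι → ℝ) :
    dEval p x y = ∑ j, eval x (pderiv j p) * y j := by
  simp [dEval]

theorem hasStrictFDerivAt_eval (p : MvPolynomial ι ℝ) (x : ι → ℝ) :
    HasStrictFDerivAt (fun y : ι → ℝ => eval y p) (dEval p x) x := by
  induction p using MvPolynomial.induction_on with
  | C a =>
    have h1 : (fun y : ι → ℝ => eval y (C a : MvPolynomial ι ℝ)) = fun _ => a := by
      funext y; simp
    have h2 : dEval (C a : MvPolynomial ι ℝ) x = 0 := by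
      ext y; simp [dEval_apply]
    rw [h1, h2]
    exact hasStrictFDerivAt_const a x
  | add p q hp hq =>
    have h1 : (fun y : ι → ℝ => eval y (p + q)) = fun y => eval y p + eval y q := by
      funext y; simp
    have h2 : dEval (p + q) x = dEval p x + dEval q x := by
      ext y; simp [dEval_apply, add_mul, Finset.sum_add_distrib]
    rw [h1, h2]
    exact hp.add hq
  | mul_X p i hp =>
    have h1 : (fun y : ι → ℝ => eval y (p * X i)) = fun y => eval y p * y i := by
      funext y; simp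
    have h2 : dEval (p * X i) x = eval x p • (ContinuousLinearMap.proj i : (ι → ℝ) →L[ℝ] ℝ)
        + x i • dEval p x := by
      ext y
      simp only [dEval_apply, add_apply, smul_apply,
        ContinuousLinearMap.proj_apply, smul_eq_mul, Derivation.leibniz, pderiv_X, map_add, map_mul,
        eval_X]
      rw [Finset.mul_sum]
      simp only [add_mul, Finset.sum_add_distrib]
      congr 1
      · rw [Finset.sum_eq_single i]
        · simp
        · intro j _ hj
          simp [Pi.single_apply, hj]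
        · simp
      · refine Finset.sum_congr rfl fun j _ => ?_
        ring
    rw [h1, h2]
    exact hp.mul (ContinuousLinearMap.proj i : (ι → ℝ) →L[ℝ] ℝ).hasStrictFDerivAt

/-- polynomial map -/
noncomputable def pmap (f : ι → MvPolynomial ι ℝ) (x : ι → ℝ) : ι → ℝ := fun i => eval x (f i)

/-- Jacobian matrix of a polynomial map -/
noncomputable def jac (f : ι → MvPolynomial ι ℝ) (x : ι → ℝ) : Matrix ι ι ℝ :=
  Matrix.of fun i j => eval x (pderiv j (f i))

/-- the derivative as a continuous linear map -/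
noncomputable def djac (f : ι → MvPolynomial ι ℝ) (x : ι → ℝ) : (ι → ℝ) →L[ℝ] (ι → ℝ) :=
  LinearMap.toContinuousLinearMap (Matrix.toLin' (jac f x))

theorem djac_det (f : ι → MvPolynomial ι ℝ) (x : ι → ℝ) : (djac f x).det = (jac f x).det := by
  simp [djac, ContinuousLinearMap.det]

theorem djac_apply (f : ι → MvPolynomial ι ℝ) (x y : ι → ℝ) (i : ι) :
    djac f x y i = dEval (f i) x y := by
  simp [djac, jac, dEval_apply, Matrix.toLin'_apply, Matrix.mulVec, dotProduct]

theorem hasStrictFDerivAt_pmap (f : ι → MvPolynomial ι ℝ) (x : ι → ℝ) :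
    HasStrictFDerivAt (pmap f) (djac f x) x := by
  rw [hasStrictFDerivAt_pi']
  intro i
  have : (ContinuousLinearMap.proj i : (ι → ℝ) →L[ℝ] ℝ).comp (djac f x) = dEval (f i) x := by
    ext y; simp [djac_apply]
  rw [this]
  exact hasStrictFDerivAt_eval (f i) x

theorem continuous_eval' (p : MvPolynomial ι ℝ) : Continuous fun x : ι → ℝ => eval x p :=
  MvPolynomial.continuous_eval p

theorem continuous_pmap (f : ι → MvPolynomial ι ℝ) : Continuous (pmap f) :=
  continuous_pi fun i => MvPolynomial.continuous_eval (f i)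

theorem continuous_jac_det (f : ι → MvPolynomial ι ℝ) : Continuous fun x => (jac f x).det := by
  refine Continuous.matrix_det ?_
  refine continuous_matrix fun i j => ?_
  exact MvPolynomial.continuous_eval _

/-- perturbed system -/
noncomputable def pert (f : ι → MvPolynomial ι ℝ) (K : ℕ) (y : ℝ × (ι → ℝ)) : ℝ × (ι → ℝ) :=
  (y.1, fun i => eval y.2 (f i) + y.1 * (y.2 i) ^ K)

theorem pert_hasStrictFDerivAt (f : ι → MvPolynomial ι ℝ) (K : ℕ) (z : ι → ℝ) :
    HasStrictFDerivAt (pert f K)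
      ((ContinuousLinearMap.fst ℝ ℝ (ι → ℝ)).prod
        (ContinuousLinearMap.pi fun i =>
          (dEval (f i) z).comp (ContinuousLinearMap.snd ℝ ℝ (ι → ℝ)) +
            (z i ^ K) • ContinuousLinearMap.fst ℝ ℝ (ι → ℝ))) ((0 : ℝ), z) := by
  refine HasStrictFDerivAt.prodMk hasStrictFDerivAt_fst ?_
  rw [hasStrictFDerivAt_pi']
  intro i
  have h1 : HasStrictFDerivAt (fun y : ℝ × (ι → ℝ) => eval y.2 (f i))
      ((dEval (f i) z).comp (ContinuousLinearMap.snd ℝ ℝ (ι → ℝ))) ((0 : ℝ), z) :=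
    HasStrictFDerivAt.comp (g := fun y : ι → ℝ => eval y (f i)) ((0 : ℝ), z)
      (hasStrictFDerivAt_eval (f i) z) hasStrictFDerivAt_snd
  have h2 : HasStrictFDerivAt (fun y : ℝ × (ι → ℝ) => y.2 i)
      ((ContinuousLinearMap.proj i : (ι → ℝ) →L[ℝ] ℝ).comp (ContinuousLinearMap.snd ℝ ℝ (ι → ℝ)))
      ((0 : ℝ), z) :=
    ((ContinuousLinearMap.proj i : (ι → ℝ) →L[ℝ] ℝ).comp
      (ContinuousLinearMap.snd ℝ ℝ (ι → ℝ))).hasStrictFDerivAt
  have h3 := h2.pow K
  have h4 : HasStrictFDerivAt (fun y : ℝ × (ι → ℝ) => y.1)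
      (ContinuousLinearMap.fst ℝ ℝ (ι → ℝ)) ((0 : ℝ), z) := hasStrictFDerivAt_fst
  have h5 := h4.mul h3
  have h6 := h1.add h5
  have h7 : (ContinuousLinearMap.proj i : (ι → ℝ) →L[ℝ] ℝ).comp
      (ContinuousLinearMap.pi fun i =>
          (dEval (f i) z).comp (ContinuousLinearMap.snd ℝ ℝ (ι → ℝ)) +
            (z i ^ K) • ContinuousLinearMap.fst ℝ ℝ (ι → ℝ)) =
      (dEval (f i) z).comp (ContinuousLinearMap.snd ℝ ℝ (ι → ℝ)) +
            (z i ^ K) • ContinuousLinearMap.fst ℝ ℝ (ι → ℝ) := by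
    ext y <;> simp
  rw [h7]
  refine h6.congr_fderiv ?_
  ext y <;> simp

theorem pert_surj (f : ι → MvPolynomial ι ℝ) (K : ℕ) (z : ι → ℝ) (hz : (jac f z).det ≠ 0) :
    ((ContinuousLinearMap.fst ℝ ℝ (ι → ℝ)).prod
        (ContinuousLinearMap.pi fun i =>
          (dEval (f i) z).comp (ContinuousLinearMap.snd ℝ ℝ (ι → ℝ)) +
            (z i ^ K) • ContinuousLinearMap.fst ℝ ℝ (ι → ℝ))).range = ⊤ := by
  rw [LinearMap.range_eq_top]
  rintro ⟨e, w⟩
  have hu : IsUnit (jac f z).det := isUnit_iff_ne_zero.mpr hz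
  refine ⟨(e, (jac f z)⁻¹.mulVec (fun i => w i - z i ^ K * e)), ?_⟩
  have key : ∀ i, dEval (f i) z ((jac f z)⁻¹.mulVec (fun i => w i - z i ^ K * e)) =
      w i - z i ^ K * e := by
    intro i
    rw [← djac_apply]
    simp only [djac, LinearMap.coe_toContinuousLinearMap', Matrix.toLin'_apply,
      Matrix.mulVec_mulVec]
    rw [Matrix.mul_nonsing_inv _ hu, Matrix.one_mulVec]
  refine Prod.ext ?_ ?_
  · simp
  · funext i
    simp [key i]

/-- A polynomial map has at most `(d+1)^n` nondegenerate zeros. -/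
theorem card_nondeg_le {d : ℕ} (f : ι → MvPolynomial ι ℝ) (hd : ∀ i, (f i).totalDegree ≤ d)
    (Z : Finset (ι → ℝ)) (hZ : ∀ z ∈ Z, ∀ i, eval z (f i) = 0)
    (hJ : ∀ z ∈ Z, (jac f z).det ≠ 0) : Z.card ≤ (d + 1) ^ Fintype.card ι := by
  classical
  -- disjoint neighbourhoods
  obtain ⟨N, hN, hdisj⟩ := (Z.finite_toSet).t2_separation
  -- for each zero, the perturbed system has a zero in the neighbourhood for small parameters
  have hloc : ∀ z ∈ Z, ∀ᶠ e in 𝓝 (0 : ℝ), ∃ x ∈ N z, ∀ i, eval x (f i) + e * x i ^ (d + 1) = 0 := by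
    intro z hz
    have hs := pert_hasStrictFDerivAt f (d + 1) z
    have hmap := hs.map_nhds_eq_of_surj (pert_surj f (d + 1) z (hJ z hz))
    have hval : pert f (d + 1) ((0 : ℝ), z) = ((0 : ℝ), (0 : ι → ℝ)) := by
      refine Prod.ext rfl ?_
      funext i
      simp [pert, hZ z hz i]
    rw [hval] at hmap
    have hnb : (Set.univ ×ˢ N z : Set (ℝ × (ι → ℝ))) ∈ 𝓝 ((0 : ℝ), z) :=
      prod_mem_nhds univ_mem ((hN z).2.mem_nhds (hN z).1)
    have him : pert f (d + 1) '' (Set.univ ×ˢ N z) ∈ 𝓝 ((0 : ℝ), (0 : ι → ℝ)) := by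
      rw [← hmap]
      exact image_mem_map hnb
    have hcont : Tendsto (fun e : ℝ => (e, (0 : ι → ℝ))) (𝓝 0) (𝓝 ((0 : ℝ), (0 : ι → ℝ))) :=
      (Continuous.prodMk continuous_id continuous_const).tendsto' 0 _ rfl
    filter_upwards [hcont him] with e he
    obtain ⟨⟨e', x⟩, hx, hxe⟩ := he
    have h1 : e' = e := congrArg Prod.fst hxe
    have h2 := congrArg Prod.snd hxe
    refine ⟨x, hx.2, fun i => ?_⟩
    have h3 := congrFun h2 i
    simp only [pert] at h3
    rw [h1] at h3
    simpa using h3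
  have hall : ∀ᶠ e in 𝓝 (0 : ℝ), ∀ z ∈ Z, ∃ x ∈ N z, ∀ i, eval x (f i) + e * x i ^ (d + 1) = 0 := by
    rw [Filter.eventually_all_finset]
    exact hloc
  have hall' : ∀ᶠ e in 𝓝[>] (0 : ℝ), ∀ z ∈ Z, ∃ x ∈ N z, ∀ i,
      eval x (f i) + e * x i ^ (d + 1) = 0 := hall.filter_mono nhdsWithin_le_nhds
  obtain ⟨e, he, hepos⟩ := (hall'.and self_mem_nhdsWithin).exists
  have hepos : 0 < e := hepos
  choose! g hgN hg0 using he
  have hginj : Set.InjOn g (Z : Set (ι → ℝ)) := by
    intro z hz w hw hzw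
    by_contra hne
    have hd' := hdisj hz hw hne
    exact Set.disjoint_left.mp hd' (hgN z hz) (hzw ▸ hgN w hw)
  have hcard : (Z.image g).card = Z.card := Finset.card_image_of_injOn hginj
  rw [← hcard]
  refine card_zeros_le (fun i => C e⁻¹ * f i) (fun i => ?_) (Z.image g) ?_
  · have h1 := totalDegree_mul (C e⁻¹ : MvPolynomial ι ℝ) (f i)
    have h2 := hd i
    simp only [totalDegree_C] at h1
    omega
  · intro x hx i
    obtain ⟨z, hz, rfl⟩ := Finset.mem_image.mp hx
    have h1 := hg0 z hz i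
    simp only [map_mul, eval_C]
    have h2 : eval (g z) (f i) = - (e * g z i ^ (d + 1)) := by linarith
    rw [h2]
    field_simp
    ring

end Pool.Agent.H50.PW
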