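import Mathlib
import Pool.Agent.H50.PW.Nondeg

/-! Area inequality for polynomial maps, with multiplicity bounded by the degree. -/

namespace Pool.Agent.H50.PW

open MvPolynomial Filter Topology MeasureTheory Set

set_option linter.unusedSectionVars false

variable {ι : Type*} [Fintype ι] [DecidableEq ι]

theorem exists_open_injOn (f : ι → MvPolynomial ι ℝ) (x : ι → ℝ) (hx : (jac f x).det ≠ 0) :
    ∃ O : Set (ι → ℝ), IsOpen O ∧ x ∈ O ∧ InjOn (pmap f) O := by
  have hdet : (djac f x).det ≠ 0 := by rwa [djac_det]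
  have h1 : HasStrictFDerivAt (pmap f)
      (((djac f x).toContinuousLinearEquivOfDetNeZero hdet : (ι → ℝ) ≃L[ℝ] (ι → ℝ)) :
        (ι → ℝ) →L[ℝ] (ι → ℝ)) x := by
    rw [ContinuousLinearMap.coe_toContinuousLinearEquivOfDetNeZero]
    exact hasStrictFDerivAt_pmap f x
  refine ⟨(h1.toOpenPartialHomeomorph (pmap f)).source,
    (h1.toOpenPartialHomeomorph (pmap f)).open_source,
    h1.mem_toOpenPartialHomeomorph_source, ?_⟩
  have h2 := (h1.toOpenPartialHomeomorph (pmap f)).injOn
  rwa [h1.toOpenPartialHomeomorph_coe] at h2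

theorem exists_injective_cover (f : ι → MvPolynomial ι ℝ) :
    ∃ O : ℕ → Set (ι → ℝ), (∀ k, IsOpen (O k)) ∧ (∀ k, InjOn (pmap f) (O k)) ∧
      {x | (jac f x).det ≠ 0} ⊆ ⋃ k, O k := by
  classical
  have hex : ∀ x : ι → ℝ, ∃ O : Set (ι → ℝ), IsOpen O ∧ InjOn (pmap f) O ∧
      ((jac f x).det ≠ 0 → x ∈ O) := by
    intro x
    by_cases hx : (jac f x).det ≠ 0
    · obtain ⟨O, h1, h2, h3⟩ := exists_open_injOn f x hx
      exact ⟨O, h1, h3, fun _ => h2⟩
    · exact ⟨∅, isOpen_empty, by simp, fun h => absurd h hx⟩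
  choose O hO hinj hmem using hex
  obtain ⟨T, hT, hU⟩ := TopologicalSpace.isOpen_iUnion_countable O hO
  rcases T.eq_empty_or_nonempty with hemp | hne
  · refine ⟨fun _ => ∅, fun _ => isOpen_empty, by simp, ?_⟩
    intro x hx
    have : x ∈ ⋃ i, O i := mem_iUnion.mpr ⟨x, hmem x hx⟩
    rw [← hU, hemp] at this
    simp at this
  · obtain ⟨e, he⟩ := hT.exists_eq_range hne
    refine ⟨fun k => O (e k), fun k => hO _, fun k => hinj _, ?_⟩
    intro x hx
    have : x ∈ ⋃ i, O i := mem_iUnion.mpr ⟨x, hmem x hx⟩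
    rw [← hU] at this
    simp only [mem_iUnion] at this ⊢
    obtain ⟨i, hi, hxi⟩ := this
    rw [he] at hi
    obtain ⟨k, rfl⟩ := hi
    exact ⟨k, hxi⟩

/-- number of preimages under a polynomial map with nonzero Jacobian -/
theorem card_preimages_le {d : ℕ} (f : ι → MvPolynomial ι ℝ)
    (hd : ∀ i, (f i).totalDegree ≤ d) (y : ι → ℝ) (Z : Finset (ι → ℝ))
    (hZ : ∀ z ∈ Z, pmap f z = y) (hJ : ∀ z ∈ Z, (jac f z).det ≠ 0) :
    Z.card ≤ (d + 1) ^ Fintype.card ι := by
  have hjac : ∀ z, jac (fun i => f i - C (y i)) z = jac f z := by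
    intro z
    ext i j
    simp [jac]
  refine card_nondeg_le (fun i => f i - C (y i)) (fun i => ?_) Z ?_ ?_
  · refine (totalDegree_sub _ _).trans ?_
    simp only [totalDegree_C]
    exact max_le (hd i) (Nat.zero_le _)
  · intro z hz i
    have := congrFun (hZ z hz) i
    simp only [pmap] at this
    simp [this]
  · intro z hz
    rw [hjac]
    exact hJ z hz

theorem lintegral_det_le {d : ℕ} (f : ι → MvPolynomial ι ℝ) (hd : ∀ i, (f i).totalDegree ≤ d)
    (K : Set (ι → ℝ)) (hK : MeasurableSet K) :
    ∫⁻ x in K, ENNReal.ofReal |(jac f x).det| ≤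
      ((d + 1) ^ Fintype.card ι : ℕ) * volume (pmap f '' K) := by
  classical
  set N : ℕ := (d + 1) ^ Fintype.card ι with hN
  obtain ⟨O, hO, hinj, hcov⟩ := exists_injective_cover f
  set R : Set (ι → ℝ) := {x | (jac f x).det ≠ 0} with hR
  have hRm : MeasurableSet R := by
    have : R = (fun x => (jac f x).det) ⁻¹' {0}ᶜ := rfl
    rw [this]
    exact (continuous_jac_det f).measurable (measurableSet_singleton _).compl
  set Q : ℕ → Set (ι → ℝ) := fun k => (K ∩ R) ∩ disjointed O k with hQ
  have hQm : ∀ k, MeasurableSet (Q k) := fun k =>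
    (hK.inter hRm).inter (MeasurableSet.disjointed (fun i => (hO i).measurableSet) k)
  have hQdisj : Pairwise (Function.onFun Disjoint Q) := by
    intro i j hij
    exact (disjoint_disjointed O hij).mono inter_subset_right inter_subset_right
  have hQu : ⋃ k, Q k = K ∩ R := by
    rw [← inter_iUnion, iUnion_disjointed]
    exact inter_eq_left.mpr fun x hx => hcov hx.2
  have hderiv : ∀ k, ∀ x ∈ Q k, HasFDerivWithinAt (pmap f) (djac f x) (Q k) x := fun k x _ =>
    (hasStrictFDerivAt_pmap f x).hasFDerivAt.hasFDerivWithinAt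
  have hQinj : ∀ k, InjOn (pmap f) (Q k) := fun k =>
    (hinj k).mono (inter_subset_right.trans (disjointed_subset O k))
  -- step 1: drop the degenerate points
  have h1 : ∫⁻ x in K, ENNReal.ofReal |(jac f x).det| =
      ∫⁻ x in K ∩ R, ENNReal.ofReal |(jac f x).det| := by
    rw [← lintegral_indicator hK, ← lintegral_indicator (hK.inter hRm)]
    refine lintegral_congr fun x => ?_
    by_cases hxK : x ∈ K
    · by_cases hxR : x ∈ R
      · rw [indicator_of_mem hxK, indicator_of_mem (show x ∈ K ∩ R from ⟨hxK, hxR⟩)]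
      · rw [indicator_of_mem hxK, indicator_of_notMem (fun h => hxR h.2)]
        have : (jac f x).det = 0 := by
          by_contra h
          exact hxR h
        simp [this]
    · rw [indicator_of_notMem hxK, indicator_of_notMem (fun h => hxK h.1)]
  -- step 2: pieces
  have h2 : ∫⁻ x in K ∩ R, ENNReal.ofReal |(jac f x).det| =
      ∑' k, ∫⁻ x in Q k, ENNReal.ofReal |(jac f x).det| := by
    rw [← hQu]
    exact lintegral_iUnion hQm hQdisj _
  have h3 : ∀ k, ∫⁻ x in Q k, ENNReal.ofReal |(jac f x).det| = volume (pmap f '' Q k) := by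
    intro k
    rw [← lintegral_abs_det_fderiv_eq_addHaar_image volume (hQm k) (hderiv k) (hQinj k)]
    simp only [djac_det]
  have himm : ∀ k, MeasurableSet (pmap f '' Q k) := fun k =>
    measurable_image_of_fderivWithin (hQm k) (hderiv k) (hQinj k)
  have h4 : ∑' k, volume (pmap f '' Q k) =
      ∫⁻ y, ∑' k, (pmap f '' Q k).indicator (fun _ => (1 : ENNReal)) y := by
    rw [lintegral_tsum (fun k => (measurable_const.indicator (himm k)).aemeasurable)]
    refine tsum_congr fun k => ?_
    rw [lintegral_indicator (himm k)]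
    simp
  -- pointwise bound
  set B : Set (ι → ℝ) := toMeasurable volume (pmap f '' K) with hB
  have h5 : ∀ y, ∑' k, (pmap f '' Q k).indicator (fun _ => (1 : ENNReal)) y ≤
      B.indicator (fun _ => (N : ENNReal)) y := by
    intro y
    by_cases hy : y ∈ pmap f '' K
    · have hyB : y ∈ B := subset_toMeasurable _ _ hy
      rw [indicator_of_mem hyB, ENNReal.tsum_eq_iSup_sum]
      refine iSup_le fun s => ?_
      -- choose preimages
      set s' : Finset ℕ := s.filter fun k => y ∈ pmap f '' Q k with hs'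
      have hsum : ∑ k ∈ s, (pmap f '' Q k).indicator (fun _ => (1 : ENNReal)) y =
          (s'.card : ENNReal) := by
        rw [hs', Finset.card_filter]
        push_cast
        refine Finset.sum_congr rfl fun k _ => ?_
        by_cases hk : y ∈ pmap f '' Q k
        · rw [indicator_of_mem hk, if_pos hk]
        · rw [indicator_of_notMem hk, if_neg hk]
      rw [hsum]
      have hch : ∀ k ∈ s', ∃ x, x ∈ Q k ∧ pmap f x = y := by
        intro k hk
        have := (Finset.mem_filter.mp hk).2
        obtain ⟨x, hx, hxy⟩ := this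
        exact ⟨x, hx, hxy⟩
      choose! g hgQ hgy using hch
      have hginj : InjOn g (s' : Set ℕ) := by
        intro i hi j hj hij
        by_contra hne
        exact (Set.disjoint_left.mp (hQdisj hne)) (hgQ i hi) (hij ▸ hgQ j hj)
      have hcard : (s'.image g).card = s'.card := Finset.card_image_of_injOn hginj
      have hle : (s'.image g).card ≤ N := by
        refine card_preimages_le f hd y _ ?_ ?_
        · intro z hz
          obtain ⟨k, hk, rfl⟩ := Finset.mem_image.mp hz
          exact hgy k hk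
        · intro z hz
          obtain ⟨k, hk, rfl⟩ := Finset.mem_image.mp hz
          exact (hgQ k hk).1.2
      rw [hcard] at hle
      exact_mod_cast hle
    · have : ∀ k, (pmap f '' Q k).indicator (fun _ => (1 : ENNReal)) y = 0 := by
        intro k
        refine indicator_of_notMem (fun h => hy ?_) _
        obtain ⟨x, hx, hxy⟩ := h
        exact ⟨x, hx.1.1, hxy⟩
      simp [this]
  calc ∫⁻ x in K, ENNReal.ofReal |(jac f x).det|
      = ∑' k, volume (pmap f '' Q k) := by
        rw [h1, h2]; exact tsum_congr h3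
    _ = ∫⁻ y, ∑' k, (pmap f '' Q k).indicator (fun _ => (1 : ENNReal)) y := h4
    _ ≤ ∫⁻ y, B.indicator (fun _ => (N : ENNReal)) y := lintegral_mono h5
    _ = N * volume (pmap f '' K) := by
        rw [lintegral_indicator (measurableSet_toMeasurable _ _), lintegral_const,
          Measure.restrict_apply_univ, measure_toMeasurable]

end Pool.Agent.H50.PW
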