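import Mathlib
import Pool.Agent.H50.PW.Area

/-! The monic determinant: block determinants at several times. -/

namespace Pool.Agent.H50.PW

open MvPolynomial Matrix

set_option linter.unusedSectionVars false

variable {μ ν : Type*} [Fintype μ] [DecidableEq μ] [Fintype ν] [DecidableEq ν]

/-- weights of the highest divided difference -/
noncomputable def wt {k : ℕ} (t : Fin k → ℝ) (i : Fin k) : ℝ :=
  |∏ j ∈ Finset.univ.erase i, (t i - t j)|⁻¹

theorem wt_nonneg {k : ℕ} (t : Fin k → ℝ) (i : Fin k) : 0 ≤ wt t i := by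
  unfold wt; positivity

theorem det_block_eq (t : ℝ) (B : Matrix μ ν ℝ) (C : Matrix ν μ ℝ) (H : Matrix ν ν ℝ)
    (hH : H.det ≠ 0) :
    (Matrix.fromBlocks (t • (1 : Matrix μ μ ℝ)) B C H).det =
      H.det * (B * H⁻¹ * C).charpoly.eval t := by
  have : Invertible H := Matrix.invertibleOfIsUnitDet H (isUnit_iff_ne_zero.mpr hH)
  rw [Matrix.det_fromBlocks₂₂, Matrix.eval_charpoly, Matrix.invOf_eq_nonsing_inv]
  congr 2
  rw [Matrix.scalar_apply, Matrix.smul_one_eq_diagonal]

/-- the coefficient of `t ^ m` of the block determinant is `det H`; three or more times suffice -/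
theorem abs_det_le (t : Fin (Fintype.card μ + 1) → ℝ) (ht : Function.Injective t)
    (B : Matrix μ ν ℝ) (C : Matrix ν μ ℝ) (H : Matrix ν ν ℝ) :
    |H.det| ≤ ∑ i, wt t i * |(Matrix.fromBlocks (t i • (1 : Matrix μ μ ℝ)) B C H).det| := by
  by_cases hH : H.det = 0
  · rw [hH, abs_zero]
    exact Finset.sum_nonneg fun i _ => mul_nonneg (wt_nonneg t i) (abs_nonneg _)
  · have hdeg : (B * H⁻¹ * C).charpoly.degree = Fintype.card μ := by
      rw [Matrix.charpoly_degree_eq_dim]
    have h1 : (B * H⁻¹ * C).charpoly.leadingCoeff =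
        ∑ i, ((B * H⁻¹ * C).charpoly.eval (t i)) / ∏ j ∈ Finset.univ.erase i, (t i - t j) := by
      refine Lagrange.leadingCoeff_eq_sum (s := Finset.univ) (v := t) ht.injOn ?_
      rw [hdeg]
      simp
    rw [(Matrix.charpoly_monic _).leadingCoeff] at h1
    have h2 : |H.det| = |∑ i, H.det * ((B * H⁻¹ * C).charpoly.eval (t i)) /
        ∏ j ∈ Finset.univ.erase i, (t i - t j)| := by
      have h3 : H.det = ∑ i, H.det * ((B * H⁻¹ * C).charpoly.eval (t i)) /
        ∏ j ∈ Finset.univ.erase i, (t i - t j) := by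
        calc H.det = H.det * 1 := (mul_one _).symm
          _ = H.det * ∑ i, ((B * H⁻¹ * C).charpoly.eval (t i)) /
                ∏ j ∈ Finset.univ.erase i, (t i - t j) := by rw [← h1]
          _ = _ := by
            rw [Finset.mul_sum]
            refine Finset.sum_congr rfl fun i _ => ?_
            rw [mul_div_assoc]
      exact congrArg _ h3
    rw [h2]
    refine (Finset.abs_sum_le_sum_abs _ _).trans (Finset.sum_le_sum fun i _ => ?_)
    rw [det_block_eq (t i) B C H hH, abs_div, abs_mul, wt, div_eq_inv_mul]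


/-- the polynomial map `(D, A) ↦ (U(A) + t D, A + grad_A P / 2)` -/
noncomputable def Xi (P : MvPolynomial (μ ⊕ ν) ℝ) (U : μ → MvPolynomial ν ℝ) (t : ℝ) :
    μ ⊕ ν → MvPolynomial (μ ⊕ ν) ℝ :=
  Sum.elim (fun i => rename Sum.inr (U i) + MvPolynomial.C t * X (Sum.inl i))
    (fun j => X (Sum.inr j) + MvPolynomial.C (1 / 2 : ℝ) * pderiv (Sum.inr j) P)

/-- the Hessian block -/
noncomputable def Hes (P : MvPolynomial (μ ⊕ ν) ℝ) (x : μ ⊕ ν → ℝ) : Matrix ν ν ℝ :=
  Matrix.of fun j k => eval x (pderiv (Sum.inr k)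
    (X (Sum.inr j) + MvPolynomial.C (1 / 2 : ℝ) * pderiv (Sum.inr j) P))

theorem pderiv_inl_rename (q : MvPolynomial ν ℝ) (i : μ) :
    pderiv (Sum.inl i) (rename (Sum.inr : ν → μ ⊕ ν) q) = 0 := by
  refine pderiv_eq_zero_of_notMem_vars ?_
  intro h
  have h1 := vars_rename (Sum.inr : ν → μ ⊕ ν) q h
  obtain ⟨j, _, hj⟩ := Finset.mem_image.mp h1
  exact Sum.inr_ne_inl hj

theorem jac_Xi (P : MvPolynomial (μ ⊕ ν) ℝ) (U : μ → MvPolynomial ν ℝ)
    (x : μ ⊕ ν → ℝ) :
    ∃ (B : Matrix μ ν ℝ) (C : Matrix ν μ ℝ),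
      ∀ t : ℝ, jac (Xi P U t) x = Matrix.fromBlocks (t • (1 : Matrix μ μ ℝ)) B C (Hes P x) := by
  refine ⟨Matrix.of fun i j => eval x (pderiv (Sum.inr j) (rename Sum.inr (U i))),
    Matrix.of fun j i => eval x (pderiv (Sum.inl i)
      (X (Sum.inr j) + MvPolynomial.C (1 / 2 : ℝ) * pderiv (Sum.inr j) P)), fun t => ?_⟩
  ext a b
  rcases a with i | j <;> rcases b with i' | j'
  · simp only [jac, Xi, Matrix.of_apply, Sum.elim_inl, map_add, pderiv_inl_rename, zero_add,
      Matrix.fromBlocks_apply₁₁, Matrix.smul_apply, smul_eq_mul, pderiv_C_mul, pderiv_X]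
    by_cases h : i = i'
    · subst h; simp
    · simp [Pi.single_apply, h]
  · simp [jac, Xi, pderiv_X]
  · simp [jac, Xi]
  · simp [jac, Xi, Hes]

theorem abs_det_Hes_le (P : MvPolynomial (μ ⊕ ν) ℝ) (U : μ → MvPolynomial ν ℝ)
    (t : Fin (Fintype.card μ + 1) → ℝ) (ht : Function.Injective t) (x : μ ⊕ ν → ℝ) :
    |(Hes P x).det| ≤ ∑ i, wt t i * |(jac (Xi P U (t i)) x).det| := by
  obtain ⟨B, C, hBC⟩ := jac_Xi P U x
  have := abs_det_le t ht B C (Hes P x)
  refine this.trans (le_of_eq (Finset.sum_congr rfl fun i _ => ?_))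
  rw [hBC (t i)]

theorem totalDegree_pderiv_le {σ : Type*} (p : MvPolynomial σ ℝ) (i : σ) :
    (pderiv i p).totalDegree ≤ p.totalDegree := by
  classical
  rw [p.as_sum, map_sum]
  refine (totalDegree_finsetSum _ _).trans ?_
  rw [← p.as_sum]
  refine Finset.sup_le fun s hs => ?_
  rw [pderiv_monomial]
  refine (totalDegree_monomial_le _ _).trans ?_
  refine le_trans ?_ (le_totalDegree hs)
  have h1 : (s - Finsupp.single i 1) ≤ s := tsub_le_self
  exact Finsupp.sum_le_sum_index h1 (fun j _ => monotone_id) (fun j _ => rfl)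

theorem totalDegree_Xi_le (P : MvPolynomial (μ ⊕ ν) ℝ) (U : μ → MvPolynomial ν ℝ) (t : ℝ)
    {d : ℕ} (hd : 1 ≤ d) (hP : P.totalDegree ≤ d) (hU : ∀ i, (U i).totalDegree ≤ d)
    (a : μ ⊕ ν) : (Xi P U t a).totalDegree ≤ d := by
  rcases a with i | j
  · simp only [Xi, Sum.elim_inl]
    refine (totalDegree_add _ _).trans (max_le ?_ ?_)
    · exact (totalDegree_rename_le _ _).trans (hU i)
    · refine (totalDegree_mul _ _).trans ?_
      simp only [totalDegree_C, totalDegree_X, zero_add]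
      exact hd
  · simp only [Xi, Sum.elim_inr]
    refine (totalDegree_add _ _).trans (max_le ?_ ?_)
    · simp only [totalDegree_X]
      exact hd
    · refine (totalDegree_mul _ _).trans ?_
      simp only [totalDegree_C, zero_add]
      exact (totalDegree_pderiv_le P _).trans hP

end Pool.Agent.H50.PW
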