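import Mathlib
import Pool.Agent.H50.PW.Det

/-! The polynomial Wolff axiom: directions of lines in a polynomial set, measured at `m + 1` times. -/

namespace Pool.Agent.H50.PW

open MvPolynomial MeasureTheory Set Filter Topology

set_option linter.unusedSectionVars false

variable {μ ν : Type*} [Fintype μ] [DecidableEq μ] [Fintype ν] [DecidableEq ν]

/-- half the gradient plus the identity, as polynomials -/
noncomputable def Gp (P : MvPolynomial (μ ⊕ ν) ℝ) (j : ν) : MvPolynomial (μ ⊕ ν) ℝ :=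
  X (Sum.inr j) + MvPolynomial.C (1 / 2 : ℝ) * pderiv (Sum.inr j) P

/-- derivative in the second group of variables -/
noncomputable def dEvalR (q : MvPolynomial (μ ⊕ ν) ℝ) (x : μ ⊕ ν → ℝ) : (ν → ℝ) →L[ℝ] ℝ :=
  ∑ k, eval x (pderiv (Sum.inr k) q) • (ContinuousLinearMap.proj k : (ν → ℝ) →L[ℝ] ℝ)

theorem dEvalR_apply (q : MvPolynomial (μ ⊕ ν) ℝ) (x : μ ⊕ ν → ℝ) (y : ν → ℝ) :
    dEvalR q x y = ∑ k, eval x (pderiv (Sum.inr k) q) * y k := by
  simp [dEvalR]

theorem hasFDerivAt_evalR (q : MvPolynomial (μ ⊕ ν) ℝ) (D : μ → ℝ) (A : ν → ℝ) :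
    HasFDerivAt (fun A : ν → ℝ => eval (Sum.elim D A) q) (dEvalR q (Sum.elim D A)) A := by
  set L : (ν → ℝ) →L[ℝ] (μ ⊕ ν → ℝ) :=
    ContinuousLinearMap.pi (Sum.elim (fun _ => 0)
      (fun j => (ContinuousLinearMap.proj j : (ν → ℝ) →L[ℝ] ℝ))) with hL
  have h1 : HasFDerivAt (fun A : ν → ℝ => (Sum.elim D A : μ ⊕ ν → ℝ)) L A := by
    rw [hasFDerivAt_pi']
    intro a
    rcases a with i | j
    · have : (ContinuousLinearMap.proj (Sum.inl i) : (μ ⊕ ν → ℝ) →L[ℝ] ℝ).comp L = 0 := by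
        ext y; simp [hL]
      rw [this]
      exact hasFDerivAt_const (D i) A
    · have : (ContinuousLinearMap.proj (Sum.inr j) : (μ ⊕ ν → ℝ) →L[ℝ] ℝ).comp L =
          (ContinuousLinearMap.proj j : (ν → ℝ) →L[ℝ] ℝ) := by
        ext y; simp [hL]
      rw [this]
      exact (ContinuousLinearMap.proj j : (ν → ℝ) →L[ℝ] ℝ).hasFDerivAt
  have h2 := (hasStrictFDerivAt_eval q (Sum.elim D A : μ ⊕ ν → ℝ)).hasFDerivAt
  have h3 := HasFDerivAt.comp (g := fun y : μ ⊕ ν → ℝ => eval y q) A h2 h1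
  have h4 : (dEval q (Sum.elim D A : μ ⊕ ν → ℝ)).comp L = dEvalR q (Sum.elim D A) := by
    ext y
    simp [dEvalR_apply, dEval_apply, hL]
  rw [← h4]
  exact h3

theorem continuous_evalR (q : MvPolynomial (μ ⊕ ν) ℝ) (D : μ → ℝ) :
    Continuous fun A : ν → ℝ => eval (Sum.elim D A) q :=
  continuous_iff_continuousAt.mpr fun A => (hasFDerivAt_evalR q D A).continuousAt

/-- the map `A ↦ A + grad_A P / 2` for fixed `D` -/
noncomputable def Tm (P : MvPolynomial (μ ⊕ ν) ℝ) (D : μ → ℝ) (A : ν → ℝ) : ν → ℝ :=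
  fun j => eval (Sum.elim D A) (Gp P j)

theorem hasFDerivAt_Tm (P : MvPolynomial (μ ⊕ ν) ℝ) (D : μ → ℝ) (A : ν → ℝ) :
    HasFDerivAt (Tm P D)
      (LinearMap.toContinuousLinearMap (Matrix.toLin' (Hes P (Sum.elim D A)))) A := by
  rw [hasFDerivAt_pi']
  intro j
  have : (ContinuousLinearMap.proj j : (ν → ℝ) →L[ℝ] ℝ).comp
      (LinearMap.toContinuousLinearMap (Matrix.toLin' (Hes P (Sum.elim D A)))) =
      dEvalR (Gp P j) (Sum.elim D A) := by
    ext y
    simp [dEvalR_apply, Hes, Gp, Matrix.toLin'_apply, Matrix.mulVec, dotProduct]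
  rw [this]
  exact hasFDerivAt_evalR (Gp P j) D A

theorem exists_crit (P : MvPolynomial (μ ⊕ ν) ℝ) (hP0 : ∀ x, 0 ≤ eval x P) (D : μ → ℝ)
    (a : ν → ℝ) (ha : ‖a‖ ≤ 1) (hex : ∃ A : ν → ℝ, ‖A‖ ≤ 1 ∧ eval (Sum.elim D A) P ≤ 1) :
    ∃ A : ν → ℝ, ‖A‖ ≤ 2 * Fintype.card ν + 2 ∧
      eval (Sum.elim D A) P ≤ 4 * Fintype.card ν + 1 ∧ Tm P D A = a := by
  set n : ℝ := (Fintype.card ν : ℝ) with hn
  have hn0 : 0 ≤ n := Nat.cast_nonneg _
  obtain ⟨A₁, hA₁, hPA₁⟩ := hex
  set φ : (ν → ℝ) → ℝ := fun A => eval (Sum.elim D A) P + ∑ j, (A j - a j) ^ 2 with hφ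
  have hcont : Continuous φ := by
    refine (continuous_evalR P D).add (continuous_finsetSum _ fun j _ => ?_)
    exact ((continuous_apply j).sub continuous_const).pow 2
  have hcomp : IsCompact (Metric.closedBall (0 : ν → ℝ) (2 * n + 3)) := isCompact_closedBall _ _
  have hA₁mem : A₁ ∈ Metric.closedBall (0 : ν → ℝ) (2 * n + 3) := by
    rw [mem_closedBall_zero_iff]; linarith
  obtain ⟨A, hAmem, hAmin⟩ := hcomp.exists_isMinOn ⟨A₁, hA₁mem⟩ hcont.continuousOn
  have hle : φ A ≤ φ A₁ := hAmin hA₁mem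
  have hφ₁ : φ A₁ ≤ 4 * n + 1 := by
    have h1 : ∀ j, (A₁ j - a j) ^ 2 ≤ 4 := by
      intro j
      have h2 : |A₁ j| ≤ 1 := (norm_le_pi_norm A₁ j).trans hA₁
      have h3 : |a j| ≤ 1 := (norm_le_pi_norm a j).trans ha
      rw [abs_le] at h2 h3
      nlinarith
    have h4 : ∑ j, (A₁ j - a j) ^ 2 ≤ ∑ _j : ν, (4 : ℝ) := Finset.sum_le_sum fun j _ => h1 j
    rw [Finset.sum_const, Finset.card_univ, nsmul_eq_mul] at h4
    simp only [hφ]
    rw [hn]
    linarith
  have hφA : φ A ≤ 4 * n + 1 := hle.trans hφ₁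
  have hsumnn : 0 ≤ ∑ j, (A j - a j) ^ 2 := Finset.sum_nonneg fun j _ => sq_nonneg _
  have hPA : eval (Sum.elim D A) P ≤ 4 * n + 1 := by
    simp only [hφ] at hφA; linarith
  have hcoord : ∀ j, |A j| ≤ 2 * n + 2 := by
    intro j
    have h1 : (A j - a j) ^ 2 ≤ ∑ j, (A j - a j) ^ 2 :=
      Finset.single_le_sum (f := fun j => (A j - a j) ^ 2) (fun i _ => sq_nonneg _)
        (Finset.mem_univ j)
    have h2 : (A j - a j) ^ 2 ≤ 4 * n + 1 := by
      have := hP0 (Sum.elim D A)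
      simp only [hφ] at hφA
      linarith
    have h3 : |A j - a j| ≤ 2 * n + 1 := by
      have h5 : (A j - a j) ^ 2 ≤ (2 * n + 1) ^ 2 := by nlinarith
      exact abs_le_of_sq_le_sq h5 (by linarith)
    have h4 : |a j| ≤ 1 := (norm_le_pi_norm a j).trans ha
    rw [abs_le] at h3 h4 ⊢
    constructor <;> linarith
  have hnorm : ‖A‖ ≤ 2 * n + 2 := by
    rw [pi_norm_le_iff_of_nonneg (by linarith)]
    exact hcoord
  have hnhds : Metric.closedBall (0 : ν → ℝ) (2 * n + 3) ∈ 𝓝 A := by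
    refine Metric.closedBall_mem_nhds_of_mem ?_
    rw [Metric.mem_ball, dist_zero_right]
    linarith
  have hloc : IsLocalMin φ A := hAmin.isLocalMin hnhds
  have hder : HasFDerivAt φ (dEvalR P (Sum.elim D A) +
      ∑ j, (2 * (A j - a j)) • (ContinuousLinearMap.proj j : (ν → ℝ) →L[ℝ] ℝ)) A := by
    refine (hasFDerivAt_evalR P D A).add ?_
    refine HasFDerivAt.fun_sum fun j _ => ?_
    have h1 : HasFDerivAt (fun A : ν → ℝ => A j - a j)
        (ContinuousLinearMap.proj j : (ν → ℝ) →L[ℝ] ℝ) A :=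
      (ContinuousLinearMap.proj j : (ν → ℝ) →L[ℝ] ℝ).hasFDerivAt.sub_const (a j)
    have h2 := h1.pow 2
    refine h2.congr_fderiv ?_
    ext y
    simp
  have hzero := hloc.hasFDerivAt_eq_zero hder
  refine ⟨A, hnorm, hPA, ?_⟩
  funext j
  have h1 := congrArg (fun L : (ν → ℝ) →L[ℝ] ℝ => L (Pi.single j 1)) hzero
  simp only [add_apply, dEvalR_apply, zero_apply, sum_apply, smul_apply,
    ContinuousLinearMap.proj_apply, smul_eq_mul] at h1
  rw [Finset.sum_eq_single j, Finset.sum_eq_single j] at h1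
  · simp only [Pi.single_eq_same, mul_one] at h1
    simp only [Tm, Gp, map_add, eval_X, Sum.elim_inr, map_mul, eval_C]
    linarith
  · intro k _ hk; simp [Pi.single_eq_of_ne hk]
  · simp
  · intro k _ hk; simp [Pi.single_eq_of_ne hk]
  · simp

/-- the set swept at time `t` -/
def swept (P : MvPolynomial (μ ⊕ ν) ℝ) (U : μ → MvPolynomial ν ℝ) (S : Set (μ → ℝ)) (t : ℝ) :
    Set (μ → ℝ) :=
  {y | ∃ D ∈ S, ∃ A : ν → ℝ, ‖A‖ ≤ 2 * Fintype.card ν + 2 ∧
    eval (Sum.elim D A) P ≤ 4 * Fintype.card ν + 1 ∧ ∀ k, y k = eval A (U k) + t * D k}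

/-- the good set of pairs -/
def good (P : MvPolynomial (μ ⊕ ν) ℝ) (S : Set (μ → ℝ)) : Set (μ ⊕ ν → ℝ) :=
  {x | (fun i => x (Sum.inl i)) ∈ S ∧ (∀ j, |x (Sum.inr j)| ≤ 2 * Fintype.card ν + 2) ∧
    eval x P ≤ 4 * Fintype.card ν + 1 ∧ ∀ j, |eval x (Gp P j)| ≤ 1}

theorem measurableSet_good (P : MvPolynomial (μ ⊕ ν) ℝ) {S : Set (μ → ℝ)}
    (hS : MeasurableSet S) : MeasurableSet (good P S) := by
  have h1 : MeasurableSet {x : μ ⊕ ν → ℝ | (fun i => x (Sum.inl i)) ∈ S} := by
    have : Measurable fun x : μ ⊕ ν → ℝ => (fun i => x (Sum.inl i) : μ → ℝ) :=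
      measurable_pi_lambda _ fun i => measurable_pi_apply _
    exact this hS
  have h2 : MeasurableSet {x : μ ⊕ ν → ℝ | ∀ j, |x (Sum.inr j)| ≤ 2 * Fintype.card ν + 2} := by
    rw [Set.ofPred_forall]
    refine MeasurableSet.iInter fun j => ?_
    exact measurableSet_le ((continuous_apply _).abs.measurable) measurable_const
  have h3 : MeasurableSet {x : μ ⊕ ν → ℝ | eval x P ≤ 4 * Fintype.card ν + 1} :=
    measurableSet_le (MvPolynomial.continuous_eval P).measurable measurable_const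
  have h4 : MeasurableSet {x : μ ⊕ ν → ℝ | ∀ j, |eval x (Gp P j)| ≤ 1} := by
    rw [Set.ofPred_forall]
    refine MeasurableSet.iInter fun j => ?_
    exact measurableSet_le (MvPolynomial.continuous_eval _).abs.measurable measurable_const
  exact h1.inter (h2.inter (h3.inter h4))

/-- lower bound: the Hessian integral over a fibre -/
theorem fibre_lower (P : MvPolynomial (μ ⊕ ν) ℝ) (hP0 : ∀ x, 0 ≤ eval x P) {S : Set (μ → ℝ)}
    (hS : MeasurableSet S) (D : μ → ℝ) (hD : D ∈ S)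
    (hex : ∃ A : ν → ℝ, ‖A‖ ≤ 1 ∧ eval (Sum.elim D A) P ≤ 1) :
    volume (Metric.closedBall (0 : ν → ℝ) 1) ≤
      ∫⁻ A : ν → ℝ, (good P S).indicator
        (fun x => ENNReal.ofReal |(Hes P x).det|) (Sum.elim D A) := by
  set KD : Set (ν → ℝ) := {A | (Sum.elim D A : μ ⊕ ν → ℝ) ∈ good P S} with hKD
  have hmeas : Measurable fun A : ν → ℝ => (Sum.elim D A : μ ⊕ ν → ℝ) := by
    refine measurable_pi_lambda _ fun a => ?_
    rcases a with i | j
    · exact measurable_const
    · exact measurable_pi_apply j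
  have hKDm : MeasurableSet KD := hmeas (measurableSet_good P hS)
  have h1 : volume (Tm P D '' KD) ≤ ∫⁻ A in KD, ENNReal.ofReal
      |(LinearMap.toContinuousLinearMap (Matrix.toLin' (Hes P (Sum.elim D A)))).det| :=
    addHaar_image_le_lintegral_abs_det_fderiv volume hKDm
      fun A _ => (hasFDerivAt_Tm P D A).hasFDerivWithinAt
  have h2 : Metric.closedBall (0 : ν → ℝ) 1 ⊆ Tm P D '' KD := by
    intro a ha
    rw [mem_closedBall_zero_iff] at ha
    obtain ⟨A, hA1, hA2, hA3⟩ := exists_crit P hP0 D a ha hex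
    refine ⟨A, ⟨hD, fun j => ?_, hA2, fun j => ?_⟩, hA3⟩
    · exact (norm_le_pi_norm A j).trans hA1
    · have h3 : eval (Sum.elim D A) (Gp P j) = a j := congrFun hA3 j
      rw [h3]
      exact (norm_le_pi_norm a j).trans ha
  refine (measure_mono h2).trans (h1.trans (le_of_eq ?_))
  rw [← lintegral_indicator hKDm]
  refine lintegral_congr fun A => ?_
  by_cases hA : A ∈ KD
  · rw [indicator_of_mem hA, indicator_of_mem (show (Sum.elim D A : μ ⊕ ν → ℝ) ∈ good P S from hA)]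
    simp [ContinuousLinearMap.det]
  · rw [indicator_of_notMem hA,
      indicator_of_notMem (show (Sum.elim D A : μ ⊕ ν → ℝ) ∉ good P S from hA)]

theorem measurable_detHes (P : MvPolynomial (μ ⊕ ν) ℝ) :
    Measurable fun x : μ ⊕ ν → ℝ => ENNReal.ofReal |(Hes P x).det| := by
  refine ENNReal.measurable_ofReal.comp ?_
  refine (Continuous.abs ?_).measurable
  refine Continuous.matrix_det (continuous_matrix fun i j => ?_)
  exact MvPolynomial.continuous_eval _

/-- Fubini for the sum of two index types -/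
theorem lintegral_sum_pi (F : (μ ⊕ ν → ℝ) → ENNReal) (hF : Measurable F) :
    ∫⁻ x, F x = ∫⁻ D : μ → ℝ, ∫⁻ A : ν → ℝ, F (Sum.elim D A) := by
  have h1 := volume_measurePreserving_sumPiEquivProdPi_symm (fun _ : μ ⊕ ν => ℝ)
  rw [← h1.lintegral_comp hF]
  have h2 : AEMeasurable (fun z : (μ → ℝ) × (ν → ℝ) =>
      F ((MeasurableEquiv.sumPiEquivProdPi fun _ : μ ⊕ ν => ℝ).symm z))
      ((volume : Measure (μ → ℝ)).prod (volume : Measure (ν → ℝ))) :=
    (hF.comp h1.measurable).aemeasurable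
  rw [Measure.volume_eq_prod, lintegral_prod _ h2]
  rfl

theorem volume_sum_pi_le (E : Set (μ → ℝ)) (B : Set (ν → ℝ)) (hB : MeasurableSet B)
    (T : Set (μ ⊕ ν → ℝ))
    (hT : ∀ y ∈ T, (fun i => y (Sum.inl i)) ∈ E ∧ (fun j => y (Sum.inr j)) ∈ B) :
    volume T ≤ volume E * volume B := by
  set E' := toMeasurable volume E with hE'
  have hE'm : MeasurableSet E' := measurableSet_toMeasurable _ _
  set T' : Set (μ ⊕ ν → ℝ) :=
    {y | (fun i => y (Sum.inl i)) ∈ E' ∧ (fun j => y (Sum.inr j)) ∈ B} with hT'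
  have hm1 : Measurable fun x : μ ⊕ ν → ℝ => (fun i => x (Sum.inl i) : μ → ℝ) :=
    measurable_pi_lambda _ fun i => measurable_pi_apply _
  have hm2 : Measurable fun x : μ ⊕ ν → ℝ => (fun i => x (Sum.inr i) : ν → ℝ) :=
    measurable_pi_lambda _ fun i => measurable_pi_apply _
  have hT'm : MeasurableSet T' := (hm1 hE'm).inter (hm2 hB)
  have hsub : T ⊆ T' := fun y hy => ⟨subset_toMeasurable _ _ (hT y hy).1, (hT y hy).2⟩
  refine (measure_mono hsub).trans ?_
  have h1 : volume T' = ∫⁻ x, T'.indicator (fun _ => (1 : ENNReal)) x := by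
    rw [lintegral_indicator hT'm]; simp
  rw [h1, lintegral_sum_pi _ (measurable_const.indicator hT'm)]
  have h2 : ∀ (D : μ → ℝ) (A : ν → ℝ), T'.indicator (fun _ => (1 : ENNReal)) (Sum.elim D A) =
      E'.indicator (fun _ => (1 : ENNReal)) D * B.indicator (fun _ => (1 : ENNReal)) A := by
    intro D A
    by_cases hD : D ∈ E'
    · by_cases hA : A ∈ B
      · have : (Sum.elim D A : μ ⊕ ν → ℝ) ∈ T' := ⟨hD, hA⟩
        rw [indicator_of_mem this, indicator_of_mem hD, indicator_of_mem hA, one_mul]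
      · have : (Sum.elim D A : μ ⊕ ν → ℝ) ∉ T' := fun h => hA h.2
        rw [indicator_of_notMem this, indicator_of_notMem hA, mul_zero]
    · have : (Sum.elim D A : μ ⊕ ν → ℝ) ∉ T' := fun h => hD h.1
      rw [indicator_of_notMem this, indicator_of_notMem hD, zero_mul]
  simp_rw [h2]
  have h3 : ∀ D : μ → ℝ, ∫⁻ A : ν → ℝ, E'.indicator (fun _ => (1 : ENNReal)) D *
      B.indicator (fun _ => (1 : ENNReal)) A =
      E'.indicator (fun _ => (1 : ENNReal)) D * volume B := by
    intro D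
    rw [lintegral_const_mul _ (measurable_const.indicator hB), lintegral_indicator hB]
    simp
  simp_rw [h3]
  rw [lintegral_mul_const _ (measurable_const.indicator hE'm), lintegral_indicator hE'm]
  simp [hE']

/-- **Polynomial Wolff axiom, abstract form.**  The directions `D` for which some parameter `A` in
the unit ball has `P(D, A) ≤ 1` have measure at most a constant times the measures of the sets
swept by `U(A) + t D` at `m + 1` arbitrary times. -/
theorem volume_directions_le {d : ℕ} (hd : 1 ≤ d) (P : MvPolynomial (μ ⊕ ν) ℝ)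
    (hP : P.totalDegree ≤ d) (hP0 : ∀ x, 0 ≤ eval x P)
    (U : μ → MvPolynomial ν ℝ) (hU : ∀ i, (U i).totalDegree ≤ d)
    (t : Fin (Fintype.card μ + 1) → ℝ) (ht : Function.Injective t)
    (S : Set (μ → ℝ)) (hS : MeasurableSet S) :
    volume {D ∈ S | ∃ A : ν → ℝ, ‖A‖ ≤ 1 ∧ eval (Sum.elim D A) P ≤ 1} ≤
      ((d + 1) ^ (Fintype.card μ + Fintype.card ν) : ℕ) *
        ∑ i, ENNReal.ofReal (wt t i) * volume (swept P U S (t i)) := by
  set B : Set (ν → ℝ) := Metric.closedBall (0 : ν → ℝ) 1 with hB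
  set N : ℕ := (d + 1) ^ (Fintype.card μ + Fintype.card ν) with hN
  set S₁ : Set (μ → ℝ) := {D ∈ S | ∃ A : ν → ℝ, ‖A‖ ≤ 1 ∧ eval (Sum.elim D A) P ≤ 1} with hS₁
  have hBpos : volume B ≠ 0 := by
    have : 0 < volume B := Metric.measure_closedBall_pos volume _ one_pos
    exact this.ne'
  have hBfin : volume B ≠ ⊤ := (isCompact_closedBall _ _).measure_lt_top.ne
  set F : (μ ⊕ ν → ℝ) → ENNReal :=
    (good P S).indicator (fun x => ENNReal.ofReal |(Hes P x).det|) with hF
  have hFm : Measurable F := (measurable_detHes P).indicator (measurableSet_good P hS)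
  set g : (μ → ℝ) → ENNReal := fun D => ∫⁻ A : ν → ℝ, F (Sum.elim D A) with hg
  have hgm : Measurable g := by
    have hj : Measurable fun z : (μ → ℝ) × (ν → ℝ) => (Sum.elim z.1 z.2 : μ ⊕ ν → ℝ) := by
      refine measurable_pi_lambda _ fun a => ?_
      rcases a with i | j
      · exact (measurable_pi_apply i).comp measurable_fst
      · exact (measurable_pi_apply j).comp measurable_snd
    exact Measurable.lintegral_prod_right' (hFm.comp hj)
  -- lower bound
  have hlow : volume B * volume S₁ ≤ ∫⁻ x, F x := by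
    rw [lintegral_sum_pi F hFm]
    refine le_trans ?_ (mul_meas_ge_le_lintegral hgm (volume B))
    refine mul_le_mul_right ?_ _
    refine measure_mono fun D hD => ?_
    exact fibre_lower P hP0 hS D hD.1 hD.2
  -- upper bound
  have hup : ∫⁻ x, F x ≤ ∑ i, ENNReal.ofReal (wt t i) *
      (N * (volume (swept P U S (t i)) * volume B)) := by
    have h1 : ∫⁻ x, F x = ∫⁻ x in good P S, ENNReal.ofReal |(Hes P x).det| := by
      rw [hF, lintegral_indicator (measurableSet_good P hS)]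
    have h2 : ∀ x : μ ⊕ ν → ℝ, ENNReal.ofReal |(Hes P x).det| ≤
        ∑ i, ENNReal.ofReal (wt t i) * ENNReal.ofReal |(jac (Xi P U (t i)) x).det| := by
      intro x
      refine (ENNReal.ofReal_le_ofReal (abs_det_Hes_le P U t ht x)).trans (le_of_eq ?_)
      rw [ENNReal.ofReal_sum_of_nonneg fun i _ => mul_nonneg (wt_nonneg t i) (abs_nonneg _)]
      exact Finset.sum_congr rfl fun i _ => ENNReal.ofReal_mul (wt_nonneg t i)
    have hjm : ∀ i, Measurable fun x : μ ⊕ ν → ℝ =>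
        ENNReal.ofReal |(jac (Xi P U (t i)) x).det| := fun i =>
      ENNReal.measurable_ofReal.comp (continuous_jac_det _).abs.measurable
    rw [h1]
    refine (lintegral_mono h2).trans ?_
    rw [lintegral_finsetSum _ fun i _ => (hjm i).const_mul _]
    refine Finset.sum_le_sum fun i _ => ?_
    rw [lintegral_const_mul _ (hjm i)]
    refine mul_le_mul_right ?_ _
    have h3 := lintegral_det_le (Xi P U (t i)) (totalDegree_Xi_le P U (t i) hd hP hU)
      (good P S) (measurableSet_good P hS)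
    rw [Fintype.card_sum] at h3
    refine h3.trans (mul_le_mul_right ?_ _)
    refine volume_sum_pi_le _ B Metric.isClosed_closedBall.measurableSet _ ?_
    rintro y ⟨x, hx, rfl⟩
    refine ⟨⟨fun i => x (Sum.inl i), hx.1, fun j => x (Sum.inr j), ?_, ?_, ?_⟩, ?_⟩
    · rw [pi_norm_le_iff_of_nonneg (by positivity)]
      exact hx.2.1
    · have h4 : (Sum.elim (fun i => x (Sum.inl i)) (fun j => x (Sum.inr j)) : μ ⊕ ν → ℝ) = x := by
        funext a; rcases a with i | j <;> rfl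
      rw [h4]
      exact hx.2.2.1
    · intro k
      simp [pmap, Xi, eval_rename, Function.comp_def]
    · rw [hB, mem_closedBall_zero_iff, pi_norm_le_iff_of_nonneg zero_le_one]
      intro j
      exact hx.2.2.2 j
  have hfin : volume B * volume S₁ ≤ volume B * (N * ∑ i, ENNReal.ofReal (wt t i) *
      volume (swept P U S (t i))) := by
    refine (hlow.trans hup).trans (le_of_eq ?_)
    rw [Finset.mul_sum, Finset.mul_sum]
    refine Finset.sum_congr rfl fun i _ => ?_
    ring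
  exact (ENNReal.mul_le_mul_iff_right hBpos hBfin).mp hfin

end Pool.Agent.H50.PW
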