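import Mathlib
import Pool.Agent.H50.PW.Main

/-! Remez-Sard lemma at a finite time: the slice at time `t'` against the slices at `m + 1` times. -/

namespace Pool.Agent.H50.PW

open MvPolynomial MeasureTheory Set Filter Topology Matrix

set_option linter.unusedSectionVars false

variable {μ ν : Type*} [Fintype μ] [DecidableEq μ] [Fintype ν] [DecidableEq ν]

/-- Lagrange weights at the point `0` -/
noncomputable def wz {k : ℕ} (s : Fin k → ℝ) (i : Fin k) : ℝ :=
  |∏ j ∈ Finset.univ.erase i, (s j / (s i - s j))|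

theorem wz_nonneg {k : ℕ} (s : Fin k → ℝ) (i : Fin k) : 0 ≤ wz s i := abs_nonneg _

theorem eval_charpolyRev (M : Matrix μ μ ℝ) (s : ℝ) :
    M.charpolyRev.eval s = (1 - s • M).det := by
  rw [Matrix.charpolyRev, ← Polynomial.coe_evalRingHom, RingHom.map_det]
  congr 1
  ext i j
  by_cases h : i = j
  · subst h; simp; ring
  · simp [h]; ring

theorem det_block_one (s : ℝ) (B : Matrix μ ν ℝ) (C : Matrix ν μ ℝ) (H : Matrix ν ν ℝ)
    (hH : H.det ≠ 0) :
    (Matrix.fromBlocks (1 : Matrix μ μ ℝ) (s • B) C H).det =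
      H.det * (B * H⁻¹ * C).charpolyRev.eval s := by
  have : Invertible H := Matrix.invertibleOfIsUnitDet H (isUnit_iff_ne_zero.mpr hH)
  rw [Matrix.det_fromBlocks₂₂, eval_charpolyRev, Matrix.invOf_eq_nonsing_inv]
  simp only [Matrix.smul_mul]

theorem natDegree_charpolyRev_le (M : Matrix μ μ ℝ) :
    M.charpolyRev.natDegree ≤ Fintype.card μ := by
  rw [← Matrix.reverse_charpoly]
  refine (Polynomial.reverse_natDegree_le _).trans ?_
  rw [Matrix.charpoly_natDegree_eq_dim]

theorem abs_det_le_slice (s : Fin (Fintype.card μ + 1) → ℝ) (hs : Function.Injective s)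
    (B : Matrix μ ν ℝ) (C : Matrix ν μ ℝ) (H : Matrix ν ν ℝ) :
    |H.det| ≤ ∑ i, wz s i * |(Matrix.fromBlocks (1 : Matrix μ μ ℝ) (s i • B) C H).det| := by
  by_cases hH : H.det = 0
  · rw [hH, abs_zero]
    exact Finset.sum_nonneg fun i _ => mul_nonneg (wz_nonneg s i) (abs_nonneg _)
  · set q := (B * H⁻¹ * C).charpolyRev with hq
    have hdeg : q.degree < (Finset.univ : Finset (Fin (Fintype.card μ + 1))).card := by
      refine (Polynomial.degree_le_of_natDegree_le (natDegree_charpolyRev_le _)).trans_lt ?_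
      simp only [Finset.card_univ, Fintype.card_fin]
      exact_mod_cast Nat.lt_succ_self _
    have h1 := Lagrange.eq_interpolate (s := Finset.univ) (v := s) hs.injOn hdeg
    have h2 : q.eval 0 = ∑ i, q.eval (s i) *
        ∏ j ∈ Finset.univ.erase i, ((0 - s j) / (s i - s j)) := by
      conv_lhs => rw [h1]
      rw [Lagrange.interpolate_apply, Polynomial.eval_finsetSum]
      refine Finset.sum_congr rfl fun i _ => ?_
      rw [Polynomial.eval_mul, Polynomial.eval_C, Lagrange.basis, Polynomial.eval_prod]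
      congr 1
      refine Finset.prod_congr rfl fun j _ => ?_
      rw [Lagrange.basisDivisor]
      simp only [Polynomial.eval_mul, Polynomial.eval_C, Polynomial.eval_sub, Polynomial.eval_X]
      rw [div_eq_inv_mul]
    have h3 : q.eval 0 = 1 := Matrix.eval_charpolyRev
    have h4 : |H.det| = |∑ i, H.det * (q.eval (s i) *
        ∏ j ∈ Finset.univ.erase i, ((0 - s j) / (s i - s j)))| := by
      rw [← Finset.mul_sum, ← h2, h3, mul_one]
    rw [h4]
    refine (Finset.abs_sum_le_sum_abs _ _).trans (Finset.sum_le_sum fun i _ => ?_)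
    rw [det_block_one (s i) B C H hH, ← hq, abs_mul, abs_mul, abs_mul, wz]
    have h5 : |∏ j ∈ Finset.univ.erase i, ((0 - s j) / (s i - s j))| =
        |∏ j ∈ Finset.univ.erase i, (s j / (s i - s j))| := by
      rw [Finset.abs_prod, Finset.abs_prod]
      refine Finset.prod_congr rfl fun j _ => ?_
      rw [abs_div, abs_div, zero_sub, abs_neg]
    rw [h5]
    exact le_of_eq (by ring)

/-- the polynomial map `(y, A) ↦ (y + s V(A), A + grad_A P / 2)` -/
noncomputable def Yi (P : MvPolynomial (μ ⊕ ν) ℝ) (V : μ → MvPolynomial ν ℝ) (s : ℝ) :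
    μ ⊕ ν → MvPolynomial (μ ⊕ ν) ℝ :=
  Sum.elim (fun i => X (Sum.inl i) + MvPolynomial.C s * rename Sum.inr (V i)) (Gp P)

theorem jac_Yi (P : MvPolynomial (μ ⊕ ν) ℝ) (V : μ → MvPolynomial ν ℝ) (x : μ ⊕ ν → ℝ) :
    ∃ (B : Matrix μ ν ℝ) (C : Matrix ν μ ℝ),
      ∀ s : ℝ, jac (Yi P V s) x = Matrix.fromBlocks (1 : Matrix μ μ ℝ) (s • B) C (Hes P x) := by
  refine ⟨Matrix.of fun i j => eval x (pderiv (Sum.inr j) (rename Sum.inr (V i))),
    Matrix.of fun j i => eval x (pderiv (Sum.inl i)
      (X (Sum.inr j) + MvPolynomial.C (1 / 2 : ℝ) * pderiv (Sum.inr j) P)), fun s => ?_⟩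
  ext a b
  rcases a with i | j <;> rcases b with i' | j'
  · simp only [jac, Yi, Matrix.of_apply, Sum.elim_inl, map_add, pderiv_C_mul,
      pderiv_inl_rename, Matrix.fromBlocks_apply₁₁, pderiv_X]
    by_cases h : i = i'
    · subst h; simp
    · simp [h]
  · simp [jac, Yi, pderiv_X]
  · simp [jac, Yi, Gp]
  · simp [jac, Yi, Hes, Gp]

theorem abs_det_Hes_le_slice (P : MvPolynomial (μ ⊕ ν) ℝ) (V : μ → MvPolynomial ν ℝ)
    (s : Fin (Fintype.card μ + 1) → ℝ) (hs : Function.Injective s) (x : μ ⊕ ν → ℝ) :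
    |(Hes P x).det| ≤ ∑ i, wz s i * |(jac (Yi P V (s i)) x).det| := by
  obtain ⟨B, C, hBC⟩ := jac_Yi P V x
  have := abs_det_le_slice s hs B C (Hes P x)
  refine this.trans (le_of_eq (Finset.sum_congr rfl fun i _ => ?_))
  rw [hBC (s i)]

theorem totalDegree_Yi_le (P : MvPolynomial (μ ⊕ ν) ℝ) (V : μ → MvPolynomial ν ℝ) (s : ℝ)
    {d : ℕ} (hd : 1 ≤ d) (hP : P.totalDegree ≤ d) (hV : ∀ i, (V i).totalDegree ≤ d)
    (a : μ ⊕ ν) : (Yi P V s a).totalDegree ≤ d := by
  rcases a with i | j
  · simp only [Yi, Sum.elim_inl]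
    refine (totalDegree_add _ _).trans (max_le ?_ ?_)
    · simp only [totalDegree_X]
      exact hd
    · refine (totalDegree_mul _ _).trans ?_
      simp only [totalDegree_C, zero_add]
      exact (totalDegree_rename_le _ _).trans (hV i)
  · simp only [Yi, Sum.elim_inr, Gp]
    refine (totalDegree_add _ _).trans (max_le ?_ ?_)
    · simp only [totalDegree_X]
      exact hd
    · refine (totalDegree_mul _ _).trans ?_
      simp only [totalDegree_C, zero_add]
      exact (totalDegree_pderiv_le P _).trans hP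

/-- the set swept at time `s` by the pairs `(y, A)` -/
def sweptS (P : MvPolynomial (μ ⊕ ν) ℝ) (V : μ → MvPolynomial ν ℝ) (S : Set (μ → ℝ)) (s : ℝ) :
    Set (μ → ℝ) :=
  {x | ∃ y ∈ S, ∃ A : ν → ℝ, ‖A‖ ≤ 2 * Fintype.card ν + 2 ∧
    eval (Sum.elim y A) P ≤ 4 * Fintype.card ν + 1 ∧ ∀ k, x k = y k + s * eval A (V k)}

/-- **Remez-Sard lemma, abstract form.**  The set of `y` for which some parameter `A` in the unit
ball has `P(y, A) ≤ 1` has measure at most a constant times the measures of the sets swept by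
`y + s V(A)` at `m + 1` arbitrary times, with the Lagrange weights at `0`. -/
theorem volume_slice_le {d : ℕ} (hd : 1 ≤ d) (P : MvPolynomial (μ ⊕ ν) ℝ)
    (hP : P.totalDegree ≤ d) (hP0 : ∀ x, 0 ≤ eval x P)
    (V : μ → MvPolynomial ν ℝ) (hV : ∀ i, (V i).totalDegree ≤ d)
    (s : Fin (Fintype.card μ + 1) → ℝ) (hs : Function.Injective s)
    (S : Set (μ → ℝ)) (hS : MeasurableSet S) :
    volume {y ∈ S | ∃ A : ν → ℝ, ‖A‖ ≤ 1 ∧ eval (Sum.elim y A) P ≤ 1} ≤
      ((d + 1) ^ (Fintype.card μ + Fintype.card ν) : ℕ) *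
        ∑ i, ENNReal.ofReal (wz s i) * volume (sweptS P V S (s i)) := by
  set B : Set (ν → ℝ) := Metric.closedBall (0 : ν → ℝ) 1 with hB
  set N : ℕ := (d + 1) ^ (Fintype.card μ + Fintype.card ν) with hN
  set S₁ : Set (μ → ℝ) := {y ∈ S | ∃ A : ν → ℝ, ‖A‖ ≤ 1 ∧ eval (Sum.elim y A) P ≤ 1} with hS₁
  have hBpos : volume B ≠ 0 := by
    have : 0 < volume B := Metric.measure_closedBall_pos volume _ one_pos
    exact this.ne'
  have hBfin : volume B ≠ ⊤ := (isCompact_closedBall _ _).measure_lt_top.ne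
  set F : (μ ⊕ ν → ℝ) → ENNReal :=
    (good P S).indicator (fun x => ENNReal.ofReal |(Hes P x).det|) with hF
  have hFm : Measurable F := (measurable_detHes P).indicator (measurableSet_good P hS)
  set g : (μ → ℝ) → ENNReal := fun D => ∫⁻ A : ν → ℝ, F (Sum.elim D A) with hg
  have hgm : Measurable g := by
    have hj : Measurable fun z : (μ → ℝ) × (ν → ℝ) => (Sum.elim z.1 z.2 : μ ⊕ ν → ℝ) := by
      refine measurable_pi_lambda _ fun a => ?_
      rcases a with i | j
      · exact (measurable_pi_apply i).comp measurable_fst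
      · exact (measurable_pi_apply j).comp measurable_snd
    exact Measurable.lintegral_prod_right' (hFm.comp hj)
  have hlow : volume B * volume S₁ ≤ ∫⁻ x, F x := by
    rw [lintegral_sum_pi F hFm]
    refine le_trans ?_ (mul_meas_ge_le_lintegral hgm (volume B))
    refine mul_le_mul_right ?_ _
    refine measure_mono fun D hD => ?_
    exact fibre_lower P hP0 hS D hD.1 hD.2
  have hup : ∫⁻ x, F x ≤ ∑ i, ENNReal.ofReal (wz s i) *
      (N * (volume (sweptS P V S (s i)) * volume B)) := by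
    have h1 : ∫⁻ x, F x = ∫⁻ x in good P S, ENNReal.ofReal |(Hes P x).det| := by
      rw [hF, lintegral_indicator (measurableSet_good P hS)]
    have h2 : ∀ x : μ ⊕ ν → ℝ, ENNReal.ofReal |(Hes P x).det| ≤
        ∑ i, ENNReal.ofReal (wz s i) * ENNReal.ofReal |(jac (Yi P V (s i)) x).det| := by
      intro x
      refine (ENNReal.ofReal_le_ofReal (abs_det_Hes_le_slice P V s hs x)).trans (le_of_eq ?_)
      rw [ENNReal.ofReal_sum_of_nonneg fun i _ => mul_nonneg (wz_nonneg s i) (abs_nonneg _)]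
      exact Finset.sum_congr rfl fun i _ => ENNReal.ofReal_mul (wz_nonneg s i)
    have hjm : ∀ i, Measurable fun x : μ ⊕ ν → ℝ =>
        ENNReal.ofReal |(jac (Yi P V (s i)) x).det| := fun i =>
      ENNReal.measurable_ofReal.comp (continuous_jac_det _).abs.measurable
    rw [h1]
    refine (lintegral_mono h2).trans ?_
    rw [lintegral_finsetSum _ fun i _ => (hjm i).const_mul _]
    refine Finset.sum_le_sum fun i _ => ?_
    rw [lintegral_const_mul _ (hjm i)]
    refine mul_le_mul_right ?_ _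
    have h3 := lintegral_det_le (Yi P V (s i)) (totalDegree_Yi_le P V (s i) hd hP hV)
      (good P S) (measurableSet_good P hS)
    rw [Fintype.card_sum] at h3
    refine h3.trans (mul_le_mul_right ?_ _)
    refine volume_sum_pi_le _ B Metric.isClosed_closedBall.measurableSet _ ?_
    rintro y ⟨x, hx, rfl⟩
    refine ⟨⟨fun i => x (Sum.inl i), hx.1, fun j => x (Sum.inr j), ?_, ?_, ?_⟩, ?_⟩
    · rw [pi_norm_le_iff_of_nonneg (by positivity)]
      exact hx.2.1
    · have h4 : (Sum.elim (fun i => x (Sum.inl i)) (fun j => x (Sum.inr j)) : μ ⊕ ν → ℝ) = x := by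
        funext a; rcases a with i | j <;> rfl
      rw [h4]
      exact hx.2.2.1
    · intro k
      simp [pmap, Yi, eval_rename, Function.comp_def]
    · rw [hB, mem_closedBall_zero_iff, pi_norm_le_iff_of_nonneg zero_le_one]
      intro j
      exact hx.2.2.2 j
  have hfin : volume B * volume S₁ ≤ volume B * (N * ∑ i, ENNReal.ofReal (wz s i) *
      volume (sweptS P V S (s i))) := by
    refine (hlow.trans hup).trans (le_of_eq ?_)
    rw [Finset.mul_sum, Finset.mul_sum]
    refine Finset.sum_congr rfl fun i _ => ?_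
    ring
  exact (ENNReal.mul_le_mul_iff_right hBpos hBfin).mp hfin

end Pool.Agent.H50.PW
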