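import Mathlib
import Pool.Agent.H50.PW.Slice

/-! Covering-number forms of the polynomial Wolff axiom and of the Remez-Sard lemma. -/

namespace Pool.Agent.H50.PW

open MvPolynomial MeasureTheory Set Filter Topology

set_option linter.unusedSectionVars false

variable {μ : Type*} [Fintype μ] [DecidableEq μ]

/-- a `δ`-separated finite set whose `δ/2`-balls lie in `A` -/
theorem card_mul_le_volume (𝓓 : Finset (μ → ℝ)) {δ : ℝ} (hδ : 0 < δ)
    (hsep : ∀ D ∈ 𝓓, ∀ D' ∈ 𝓓, D ≠ D' → δ ≤ dist D D') (A : Set (μ → ℝ))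
    (hA : ∀ D ∈ 𝓓, Metric.ball D (δ / 2) ⊆ A) :
    (𝓓.card : ENNReal) * ENNReal.ofReal δ ^ Fintype.card μ ≤ volume A := by
  have h1 : volume (⋃ D ∈ 𝓓, Metric.ball D (δ / 2)) = ∑ D ∈ 𝓓, volume (Metric.ball D (δ / 2)) := by
    refine measure_biUnion_finset ?_ fun D _ => Metric.isOpen_ball.measurableSet
    intro D hD D' hD' hne
    refine Metric.ball_disjoint_ball ?_
    have := hsep D hD D' hD' hne
    linarith
  have h2 : ∀ D : μ → ℝ, volume (Metric.ball D (δ / 2)) = ENNReal.ofReal δ ^ Fintype.card μ := by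
    intro D
    rw [Real.volume_pi_ball D (by linarith)]
    rw [← ENNReal.ofReal_pow hδ.le]
    congr 2
    ring
  simp_rw [h2] at h1
  rw [Finset.sum_const, nsmul_eq_mul] at h1
  rw [← h1]
  refine measure_mono (iUnion₂_subset hA)

theorem totalDegree_bind₁_le {σ τ : Type*} (f : σ → MvPolynomial τ ℝ)
    (hf : ∀ i, (f i).totalDegree ≤ 1) (p : MvPolynomial σ ℝ) :
    (bind₁ f p).totalDegree ≤ p.totalDegree := by
  classical
  conv_lhs => rw [p.as_sum, map_sum]
  refine (totalDegree_finsetSum _ _).trans (Finset.sup_le fun s hs => ?_)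
  rw [bind₁_monomial]
  refine (totalDegree_mul _ _).trans ?_
  rw [totalDegree_C, zero_add]
  refine (totalDegree_finsetProd _ _).trans ?_
  refine le_trans ?_ (le_totalDegree hs)
  rw [Finsupp.sum]
  refine Finset.sum_le_sum fun i _ => ?_
  refine (totalDegree_pow _ _).trans ?_
  have := hf i
  nlinarith

/-- the sum over the test times of the test polynomials along the line -/
noncomputable def lineP {k : ℕ} (Q : Fin k → MvPolynomial μ ℝ)
    (L : Fin k → μ → MvPolynomial (μ ⊕ μ) ℝ) : MvPolynomial (μ ⊕ μ) ℝ :=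
  ∑ i, bind₁ (L i) (Q i)

theorem totalDegree_lineP_le {k d : ℕ} (Q : Fin k → MvPolynomial μ ℝ)
    (L : Fin k → μ → MvPolynomial (μ ⊕ μ) ℝ) (hL : ∀ i j, (L i j).totalDegree ≤ 1)
    (hQ : ∀ i, (Q i).totalDegree ≤ d) : (lineP Q L).totalDegree ≤ d := by
  refine (totalDegree_finsetSum _ _).trans (Finset.sup_le fun i _ => ?_)
  exact (totalDegree_bind₁_le _ (hL i) _).trans (hQ i)

theorem eval_lineP {k : ℕ} (Q : Fin k → MvPolynomial μ ℝ)
    (L : Fin k → μ → MvPolynomial (μ ⊕ μ) ℝ) (x : μ ⊕ μ → ℝ) :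
    eval x (lineP Q L) = ∑ i, eval (fun j => eval x (L i j)) (Q i) := by
  rw [lineP, map_sum]
  refine Finset.sum_congr rfl fun i _ => ?_
  induction Q i using MvPolynomial.induction_on with
  | C a => simp only [bind₁_C_right, eval_C]
  | add p q hp hq => rw [map_add, map_add, map_add, hp, hq]
  | mul_X p n hp => rw [map_mul, map_mul, map_mul, hp, bind₁_X_right, eval_X]

/-- **Polynomial Wolff axiom, covering form.**  `Q i` is the test polynomial at time `t i`. -/
theorem card_directions_le {d : ℕ} (hd : 1 ≤ d) {R : ℝ}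
    (Q : Fin (Fintype.card μ + 1) → MvPolynomial μ ℝ) (hQ : ∀ i, (Q i).totalDegree ≤ d)
    (hQ0 : ∀ i x, 0 ≤ eval x (Q i))
    (t : Fin (Fintype.card μ + 1) → ℝ) (ht : Function.Injective t)
    (𝓓 : Finset (μ → ℝ)) {δ : ℝ} (hδ : 0 < δ)
    (hsep : ∀ D ∈ 𝓓, ∀ D' ∈ 𝓓, D ≠ D' → δ ≤ dist D D')
    (hline : ∀ D ∈ 𝓓, ∃ U : μ → ℝ, ‖U‖ ≤ 1 ∧ ∀ D' : μ → ℝ, dist D' D < δ / 2 →
      ‖D'‖ ≤ R ∧ ∑ i, eval (fun k => U k + t i * D' k) (Q i) ≤ 1) :
    (𝓓.card : ENNReal) * ENNReal.ofReal δ ^ Fintype.card μ ≤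
      ((d + 1) ^ (Fintype.card μ + Fintype.card μ) : ℕ) *
        ∑ i, ENNReal.ofReal (wt t i) *
          volume {x : μ → ℝ | ‖x‖ ≤ 2 * Fintype.card μ + 2 + |t i| * R ∧
            eval x (Q i) ≤ 4 * Fintype.card μ + 1} := by
  set L : Fin (Fintype.card μ + 1) → μ → MvPolynomial (μ ⊕ μ) ℝ :=
    fun i k => X (Sum.inr k) + C (t i) * X (Sum.inl k) with hL
  have hLdeg : ∀ i k, (L i k).totalDegree ≤ 1 := by
    intro i k
    refine (totalDegree_add _ _).trans (max_le ?_ ?_)
    · simp only [totalDegree_X, le_refl]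
    · refine (totalDegree_mul _ _).trans ?_
      simp only [totalDegree_C, totalDegree_X, zero_add, le_refl]
  set P := lineP Q L with hP
  have hPe : ∀ D U : μ → ℝ, eval (Sum.elim D U) P =
      ∑ i, eval (fun k => U k + t i * D k) (Q i) := by
    intro D U
    rw [hP, eval_lineP]
    refine Finset.sum_congr rfl fun i _ => ?_
    congr 2
    funext k
    simp [hL]
  have hP0 : ∀ x, 0 ≤ eval x P := by
    intro x
    rw [hP, eval_lineP]
    exact Finset.sum_nonneg fun i _ => hQ0 i _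
  set S : Set (μ → ℝ) := Metric.closedBall 0 R with hS
  have hmain := volume_directions_le hd P (totalDegree_lineP_le Q L hLdeg hQ) hP0
    (fun k => (X k : MvPolynomial μ ℝ)) (fun k => by rw [totalDegree_X]; exact hd) t ht S
    Metric.isClosed_closedBall.measurableSet
  refine (card_mul_le_volume 𝓓 hδ hsep _ ?_).trans (hmain.trans ?_)
  · intro D hD D' hD'
    rw [Metric.mem_ball] at hD'
    obtain ⟨U, hU, hU2⟩ := hline D hD
    obtain ⟨h1, h2⟩ := hU2 D' hD'
    refine ⟨?_, U, hU, ?_⟩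
    · rw [hS, mem_closedBall_zero_iff]; exact h1
    · rw [hPe]; exact h2
  · refine mul_le_mul_right (Finset.sum_le_sum fun i _ => mul_le_mul_right (measure_mono ?_) _) _
    rintro x ⟨D, hD, U, hU, hPU, hx⟩
    rw [hS, mem_closedBall_zero_iff] at hD
    rw [hPe] at hPU
    have hxe : x = fun k => U k + t i * D k := by
      funext k
      rw [hx k, eval_X]
    refine ⟨?_, ?_⟩
    · have : x = U + t i • D := by
        rw [hxe]; rfl
      rw [this]
      refine (norm_add_le _ _).trans (add_le_add hU ?_)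
      rw [norm_smul, Real.norm_eq_abs]
      exact mul_le_mul_of_nonneg_left hD (abs_nonneg _)
    · rw [hxe]
      refine le_trans ?_ hPU
      exact Finset.single_le_sum (f := fun i => eval (fun k => U k + t i * D k) (Q i))
        (fun j _ => hQ0 j _) (Finset.mem_univ i)

/-- **Remez-Sard lemma, covering form.**  Slice at a base time, test polynomials `Q i` at the
times `s i` relative to the base time. -/
theorem card_slice_le {d : ℕ} (hd : 1 ≤ d) {R : ℝ}
    (Q : Fin (Fintype.card μ + 1) → MvPolynomial μ ℝ) (hQ : ∀ i, (Q i).totalDegree ≤ d)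
    (hQ0 : ∀ i x, 0 ≤ eval x (Q i))
    (s : Fin (Fintype.card μ + 1) → ℝ) (hs : Function.Injective s)
    (V₀ : μ → ℝ) (c : ℝ)
    (𝒴 : Finset (μ → ℝ)) {δ : ℝ} (hδ : 0 < δ)
    (hsep : ∀ y ∈ 𝒴, ∀ y' ∈ 𝒴, y ≠ y' → δ ≤ dist y y')
    (hline : ∀ y ∈ 𝒴, ∃ A : μ → ℝ, ‖A‖ ≤ 1 ∧ ∀ y' : μ → ℝ, dist y' y < δ / 2 →
      ‖y'‖ ≤ R ∧ ∑ i, eval (fun k => y' k + s i * (V₀ k + c * A k)) (Q i) ≤ 1) :
    (𝒴.card : ENNReal) * ENNReal.ofReal δ ^ Fintype.card μ ≤
      ((d + 1) ^ (Fintype.card μ + Fintype.card μ) : ℕ) *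
        ∑ i, ENNReal.ofReal (wz s i) *
          volume {x : μ → ℝ | ‖x‖ ≤ R + |s i| * (‖V₀‖ + |c| * (2 * Fintype.card μ + 2)) ∧
            eval x (Q i) ≤ 4 * Fintype.card μ + 1} := by
  set L : Fin (Fintype.card μ + 1) → μ → MvPolynomial (μ ⊕ μ) ℝ :=
    fun i k => X (Sum.inl k) + C (s i) * (C (V₀ k) + C c * X (Sum.inr k)) with hL
  have hLdeg : ∀ i k, (L i k).totalDegree ≤ 1 := by
    intro i k
    refine (totalDegree_add _ _).trans (max_le ?_ ?_)
    · simp only [totalDegree_X, le_refl]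
    · refine (totalDegree_mul _ _).trans ?_
      rw [totalDegree_C, zero_add]
      refine (totalDegree_add _ _).trans (max_le ?_ ?_)
      · simp
      · refine (totalDegree_mul _ _).trans ?_
        simp only [totalDegree_C, totalDegree_X, zero_add, le_refl]
  set P := lineP Q L with hP
  have hPe : ∀ y A : μ → ℝ, eval (Sum.elim y A) P =
      ∑ i, eval (fun k => y k + s i * (V₀ k + c * A k)) (Q i) := by
    intro y A
    rw [hP, eval_lineP]
    refine Finset.sum_congr rfl fun i _ => ?_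
    congr 2
    funext k
    simp [hL]
  have hP0 : ∀ x, 0 ≤ eval x P := by
    intro x
    rw [hP, eval_lineP]
    exact Finset.sum_nonneg fun i _ => hQ0 i _
  set S : Set (μ → ℝ) := Metric.closedBall 0 R with hS
  have hVdeg : ∀ k, ((C (V₀ k) + C c * X k : MvPolynomial μ ℝ)).totalDegree ≤ d := by
    intro k
    refine (totalDegree_add _ _).trans (max_le ?_ ?_)
    · simp
    · refine (totalDegree_mul _ _).trans ?_
      simp only [totalDegree_C, totalDegree_X, zero_add]
      exact hd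
  have hmain := volume_slice_le hd P (totalDegree_lineP_le Q L hLdeg hQ) hP0
    (fun k => (C (V₀ k) + C c * X k : MvPolynomial μ ℝ)) hVdeg s hs S
    Metric.isClosed_closedBall.measurableSet
  refine (card_mul_le_volume 𝒴 hδ hsep _ ?_).trans (hmain.trans ?_)
  · intro y hy y' hy'
    rw [Metric.mem_ball] at hy'
    obtain ⟨A, hA, hA2⟩ := hline y hy
    obtain ⟨h1, h2⟩ := hA2 y' hy'
    refine ⟨?_, A, hA, ?_⟩
    · rw [hS, mem_closedBall_zero_iff]; exact h1
    · rw [hPe]; exact h2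
  · refine mul_le_mul_right (Finset.sum_le_sum fun i _ => mul_le_mul_right (measure_mono ?_) _) _
    rintro x ⟨y, hy, A, hA, hPA, hx⟩
    rw [hS, mem_closedBall_zero_iff] at hy
    rw [hPe] at hPA
    have hxe : x = fun k => y k + s i * (V₀ k + c * A k) := by
      funext k
      rw [hx k]
      simp
    refine ⟨?_, ?_⟩
    · have : x = y + s i • (V₀ + c • A) := by
        rw [hxe]; rfl
      rw [this]
      refine (norm_add_le _ _).trans (add_le_add hy ?_)
      rw [norm_smul, Real.norm_eq_abs]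
      refine mul_le_mul_of_nonneg_left ?_ (abs_nonneg _)
      refine (norm_add_le _ _).trans (add_le_add le_rfl ?_)
      rw [norm_smul, Real.norm_eq_abs]
      exact mul_le_mul_of_nonneg_left hA (abs_nonneg _)
    · rw [hxe]
      refine le_trans ?_ hPA
      exact Finset.single_le_sum (f := fun i => eval (fun k => y k + s i * (V₀ k + c * A k)) (Q i))
        (fun j _ => hQ0 j _) (Finset.mem_univ i)

end Pool.Agent.H50.PW
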