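import Mathlib
import Pool.Agent.H50.PW.Cover

/-! Counting directions of lines (and positions on lines) which satisfy implicit polynomial
equations with a lower bound for the Jacobian determinant at `m + 1` times. -/

namespace Pool.Agent.H50.PW

open MvPolynomial MeasureTheory Set Filter Topology

set_option linter.unusedSectionVars false

variable {μ ν J : Type*} [Fintype μ] [DecidableEq μ] [Fintype ν] [DecidableEq ν] [Fintype J]

theorem eval_bind₁_eq {σ τ : Type*} (L : σ → MvPolynomial τ ℝ) (q : MvPolynomial σ ℝ)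
    (x : τ → ℝ) : eval x (bind₁ L q) = eval (fun k => eval x (L k)) q := by
  induction q using MvPolynomial.induction_on with
  | C a => simp only [bind₁_C_right, eval_C]
  | add p q hp hq => rw [map_add, map_add, map_add, hp, hq]
  | mul_X p n hp => rw [map_mul, map_mul, map_mul, hp, bind₁_X_right, eval_X]

/-- the Jacobian determinant as a polynomial -/
noncomputable def detP (f : μ → MvPolynomial μ ℝ) : MvPolynomial μ ℝ :=
  (Matrix.of fun i j => pderiv j (f i)).det

theorem eval_detP (f : μ → MvPolynomial μ ℝ) (x : μ → ℝ) :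
    eval x (detP f) = (jac f x).det := by
  rw [detP, RingHom.map_det]
  congr 1

theorem totalDegree_detP_le {d : ℕ} (f : μ → MvPolynomial μ ℝ)
    (hf : ∀ i, (f i).totalDegree ≤ d) : (detP f).totalDegree ≤ Fintype.card μ * d := by
  rw [detP, Matrix.det_apply']
  refine (totalDegree_finsetSum _ _).trans (Finset.sup_le fun σ _ => ?_)
  refine (totalDegree_mul _ _).trans ?_
  have h1 : (((Equiv.Perm.sign σ : ℤ) : MvPolynomial μ ℝ)).totalDegree = 0 := by
    rcases Int.units_eq_one_or (Equiv.Perm.sign σ) with h | h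
    · rw [h]; simp
    · rw [h]; simp
  rw [h1, zero_add]
  refine (totalDegree_finsetProd _ _).trans ?_
  refine (Finset.sum_le_card_nsmul _ _ d fun i _ => ?_).trans ?_
  · exact (totalDegree_pderiv_le _ _).trans (hf _)
  · simp

/-- volume of a set given by implicit equations with large Jacobian determinant -/
theorem volume_implicit_le {d : ℕ} (f : μ → MvPolynomial μ ℝ)
    (hf : ∀ i, (f i).totalDegree ≤ d) (θ : μ → ℝ) (G : ℝ) :
    ENNReal.ofReal G * volume {x : μ → ℝ | (∀ k, |eval x (f k)| ≤ θ k) ∧ G ≤ |(jac f x).det|} ≤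
      ((d + 1) ^ Fintype.card μ : ℕ) * ∏ k, ENNReal.ofReal (2 * θ k) := by
  set E : Set (μ → ℝ) := {x | (∀ k, |eval x (f k)| ≤ θ k) ∧ G ≤ |(jac f x).det|} with hE
  have hEm : MeasurableSet E := by
    have h1 : MeasurableSet {x : μ → ℝ | ∀ k, |eval x (f k)| ≤ θ k} := by
      rw [Set.ofPred_forall]
      refine MeasurableSet.iInter fun k => ?_
      exact measurableSet_le (continuous_eval' _).abs.measurable measurable_const
    have h2 : MeasurableSet {x : μ → ℝ | G ≤ |(jac f x).det|} :=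
      measurableSet_le measurable_const (continuous_jac_det f).abs.measurable
    exact h1.inter h2
  have h1 : ENNReal.ofReal G * volume E ≤ ∫⁻ x in E, ENNReal.ofReal |(jac f x).det| := by
    rw [← setLIntegral_const]
    refine setLIntegral_mono' hEm fun x hx => ?_
    exact ENNReal.ofReal_le_ofReal hx.2
  refine h1.trans ((lintegral_det_le f hf E hEm).trans ?_)
  refine mul_le_mul_right ?_ _
  have h2 : pmap f '' E ⊆ Set.Icc (fun k => - θ k) θ := by
    rintro y ⟨x, hx, rfl⟩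
    refine ⟨fun k => (abs_le.mp (hx.1 k)).1, fun k => (abs_le.mp (hx.1 k)).2⟩
  refine (measure_mono h2).trans (le_of_eq ?_)
  rw [Real.volume_Icc_pi]
  refine Finset.prod_congr rfl fun k _ => ?_
  congr 1
  ring

/-- the test polynomial of a family of implicit equations at several times -/
noncomputable def impP (L : J → μ → MvPolynomial (μ ⊕ ν) ℝ) (α : J → ν)
    (F : J → μ → MvPolynomial μ ℝ) (θ : J → μ → ℝ) (G : J → ℝ) (τ Λ : ℝ) :
    MvPolynomial (μ ⊕ ν) ℝ :=
  C τ * ∑ j, ∑ k, (C (θ j k)⁻¹ * bind₁ (L j) (F j k)) ^ 2 +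
    C Λ * ∑ j, (C (G j)⁻¹ * X (Sum.inr (α j)) * bind₁ (L j) (detP (F j)) - 1) ^ 2

theorem eval_impP (L : J → μ → MvPolynomial (μ ⊕ ν) ℝ) (α : J → ν)
    (F : J → μ → MvPolynomial μ ℝ) (θ : J → μ → ℝ) (G : J → ℝ) (τ Λ : ℝ) (x : μ ⊕ ν → ℝ) :
    eval x (impP L α F θ G τ Λ) =
      τ * ∑ j, ∑ k, ((θ j k)⁻¹ * eval (fun i => eval x (L j i)) (F j k)) ^ 2 +
      Λ * ∑ j, ((G j)⁻¹ * x (Sum.inr (α j)) *
        (jac (F j) (fun i => eval x (L j i))).det - 1) ^ 2 := by
  simp only [impP, map_add, map_mul, map_sum, map_pow, map_sub, map_one, eval_C, eval_X,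
    eval_bind₁_eq, eval_detP]

theorem totalDegree_impP_le {d : ℕ} (hd : 1 ≤ d) (L : J → μ → MvPolynomial (μ ⊕ ν) ℝ) (α : J → ν)
    (F : J → μ → MvPolynomial μ ℝ) (θ : J → μ → ℝ) (G : J → ℝ) (τ Λ : ℝ)
    (hL : ∀ j i, (L j i).totalDegree ≤ 1) (hF : ∀ j k, (F j k).totalDegree ≤ d) :
    (impP L α F θ G τ Λ).totalDegree ≤ 2 * ((Fintype.card μ + 1) * d + 1) := by
  rw [impP]
  refine (totalDegree_add _ _).trans (max_le ?_ ?_)
  · refine (totalDegree_mul _ _).trans ?_
    rw [totalDegree_C, zero_add]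
    refine (totalDegree_finsetSum _ _).trans (Finset.sup_le fun j _ => ?_)
    refine (totalDegree_finsetSum _ _).trans (Finset.sup_le fun k _ => ?_)
    refine (totalDegree_pow _ _).trans ?_
    refine Nat.mul_le_mul_left _ ?_
    refine (totalDegree_mul _ _).trans ?_
    rw [totalDegree_C, zero_add]
    refine (totalDegree_bind₁_le _ (hL j) _).trans ((hF j k).trans ?_)
    nlinarith only
  · refine (totalDegree_mul _ _).trans ?_
    rw [totalDegree_C, zero_add]
    refine (totalDegree_finsetSum _ _).trans (Finset.sup_le fun j _ => ?_)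
    refine (totalDegree_pow _ _).trans ?_
    refine Nat.mul_le_mul_left _ ?_
    refine (totalDegree_sub _ _).trans (max_le ?_ ?_)
    · refine (totalDegree_mul _ _).trans ?_
      have h1 : (C (G j)⁻¹ * X (Sum.inr (α j)) : MvPolynomial (μ ⊕ ν) ℝ).totalDegree ≤ 1 := by
        refine (totalDegree_mul _ _).trans ?_
        simp only [totalDegree_C, totalDegree_X, zero_add, le_refl]
      have h2 := (totalDegree_bind₁_le (L j) (hL j) (detP (F j))).trans
        (totalDegree_detP_le (F j) (hF j))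
      nlinarith only [hd, h1, h2]
    · simp

theorem impP_nonneg (L : J → μ → MvPolynomial (μ ⊕ ν) ℝ) (α : J → ν)
    (F : J → μ → MvPolynomial μ ℝ) (θ : J → μ → ℝ) (G : J → ℝ) {τ Λ : ℝ} (hτ : 0 ≤ τ)
    (hΛ : 0 ≤ Λ) (x : μ ⊕ ν → ℝ) : 0 ≤ eval x (impP L α F θ G τ Λ) := by
  rw [eval_impP]
  refine add_nonneg (mul_nonneg hτ ?_) (mul_nonneg hΛ ?_)
  · exact Finset.sum_nonneg fun j _ => Finset.sum_nonneg fun k _ => sq_nonneg _
  · exact Finset.sum_nonneg fun j _ => sq_nonneg _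

theorem impP_le_one (L : J → μ → MvPolynomial (μ ⊕ ν) ℝ) (α : J → ν)
    (F : J → μ → MvPolynomial μ ℝ) (θ : J → μ → ℝ) (hθ : ∀ j k, 0 < θ j k) (G : J → ℝ)
    {τ Λ : ℝ} (hτ : 0 ≤ τ) (hτ1 : τ * (Fintype.card J * Fintype.card μ) ≤ 1)
    (x : μ ⊕ ν → ℝ)
    (h1 : ∀ j k, |eval (fun i => eval x (L j i)) (F j k)| ≤ θ j k)
    (h2 : ∀ j, (G j)⁻¹ * x (Sum.inr (α j)) * (jac (F j) (fun i => eval x (L j i))).det = 1) :
    eval x (impP L α F θ G τ Λ) ≤ 1 := by
  rw [eval_impP]
  have h3 : ∑ j, ((G j)⁻¹ * x (Sum.inr (α j)) *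
      (jac (F j) (fun i => eval x (L j i))).det - 1) ^ 2 = 0 := by
    refine Finset.sum_eq_zero fun j _ => ?_
    rw [h2 j]; norm_num
  rw [h3, mul_zero, add_zero]
  refine le_trans (mul_le_mul_of_nonneg_left ?_ hτ) hτ1
  have h4 : ∀ j k, ((θ j k)⁻¹ * eval (fun i => eval x (L j i)) (F j k)) ^ 2 ≤ 1 := by
    intro j k
    rw [← sq_abs, abs_mul, abs_inv, abs_of_pos (hθ j k)]
    have h5 : (θ j k)⁻¹ * |eval (fun i => eval x (L j i)) (F j k)| ≤ 1 := by
      rw [inv_mul_le_iff₀ (hθ j k), mul_one]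
      exact h1 j k
    have h6 : 0 ≤ (θ j k)⁻¹ * |eval (fun i => eval x (L j i)) (F j k)| :=
      mul_nonneg (inv_nonneg.mpr (hθ j k).le) (abs_nonneg _)
    nlinarith only [h5, h6]
  calc ∑ j, ∑ k, ((θ j k)⁻¹ * eval (fun i => eval x (L j i)) (F j k)) ^ 2
      ≤ ∑ _j : J, ∑ _k : μ, (1 : ℝ) := Finset.sum_le_sum fun j _ => Finset.sum_le_sum fun k _ => h4 j k
    _ = Fintype.card J * Fintype.card μ := by simp

theorem of_impP_le (L : J → μ → MvPolynomial (μ ⊕ ν) ℝ) (α : J → ν)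
    (F : J → μ → MvPolynomial μ ℝ) (θ : J → μ → ℝ) (hθ : ∀ j k, 0 < θ j k) (G : J → ℝ)
    (hG : ∀ j, 0 < G j) {τ Λ K M : ℝ} (hτ : 0 < τ) (hΛ : Λ = 4 * K) (hK : 1 ≤ K)
    (hKτ : 1 ≤ K / τ) (x : μ ⊕ ν → ℝ) (hM : 0 < M) (hx : ∀ j, |x (Sum.inr (α j))| ≤ M)
    (h : eval x (impP L α F θ G τ Λ) ≤ K) (j : J) :
    (∀ k, |eval (fun i => eval x (L j i)) (F j k)| ≤ K / τ * θ j k) ∧
      G j / (2 * M) ≤ |(jac (F j) (fun i => eval x (L j i))).det| := by
  rw [eval_impP] at h
  have hS1 : 0 ≤ ∑ j, ∑ k, ((θ j k)⁻¹ * eval (fun i => eval x (L j i)) (F j k)) ^ 2 :=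
    Finset.sum_nonneg fun j _ => Finset.sum_nonneg fun k _ => sq_nonneg _
  have hS2 : 0 ≤ ∑ j, ((G j)⁻¹ * x (Sum.inr (α j)) *
      (jac (F j) (fun i => eval x (L j i))).det - 1) ^ 2 :=
    Finset.sum_nonneg fun j _ => sq_nonneg _
  have hΛ0 : 0 < Λ := by rw [hΛ]; linarith only [hK]
  refine ⟨fun k => ?_, ?_⟩
  · have h1 : ((θ j k)⁻¹ * eval (fun i => eval x (L j i)) (F j k)) ^ 2 ≤
        ∑ j, ∑ k, ((θ j k)⁻¹ * eval (fun i => eval x (L j i)) (F j k)) ^ 2 := by
      refine le_trans ?_ (Finset.single_le_sum (f := fun j => ∑ k, ((θ j k)⁻¹ *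
        eval (fun i => eval x (L j i)) (F j k)) ^ 2)
        (fun j _ => Finset.sum_nonneg fun k _ => sq_nonneg _) (Finset.mem_univ j))
      exact Finset.single_le_sum (f := fun k => ((θ j k)⁻¹ *
        eval (fun i => eval x (L j i)) (F j k)) ^ 2)
        (fun k _ => sq_nonneg _) (Finset.mem_univ k)
    have h2 : ((θ j k)⁻¹ * eval (fun i => eval x (L j i)) (F j k)) ^ 2 ≤ K / τ := by
      rw [le_div_iff₀ hτ]
      nlinarith only [h, hS2, hτ, h1, hΛ, hK]
    have h3 : |(θ j k)⁻¹ * eval (fun i => eval x (L j i)) (F j k)| ≤ K / τ := by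
      rw [← sq_abs] at h2
      nlinarith only [hKτ, h2, abs_nonneg ((θ j k)⁻¹ * eval (fun i => eval x (L j i)) (F j k))]
    rw [abs_mul, abs_inv, abs_of_pos (hθ j k), inv_mul_le_iff₀ (hθ j k)] at h3
    linarith only [h3]
  · set D := (jac (F j) (fun i => eval x (L j i))).det with hD
    have h1 : ((G j)⁻¹ * x (Sum.inr (α j)) * D - 1) ^ 2 ≤ 1 / 4 := by
      have h2 : ((G j)⁻¹ * x (Sum.inr (α j)) * D - 1) ^ 2 ≤
          ∑ j, ((G j)⁻¹ * x (Sum.inr (α j)) *
            (jac (F j) (fun i => eval x (L j i))).det - 1) ^ 2 :=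
        Finset.single_le_sum (f := fun j => ((G j)⁻¹ * x (Sum.inr (α j)) *
            (jac (F j) (fun i => eval x (L j i))).det - 1) ^ 2)
          (fun j _ => sq_nonneg _) (Finset.mem_univ j)
      have h3 : Λ * ((G j)⁻¹ * x (Sum.inr (α j)) * D - 1) ^ 2 ≤ K := by
        have h4 := mul_le_mul_of_nonneg_left h2 hΛ0.le
        have h5 := mul_nonneg hτ.le hS1
        linarith only [h, h4, h5]
      rw [hΛ] at h3
      nlinarith only [h3, hK, sq_nonneg ((G j)⁻¹ * x (Sum.inr (α j)) * D - 1)]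
    have h4 : 1 / 2 ≤ (G j)⁻¹ * x (Sum.inr (α j)) * D := by nlinarith only [h1]
    have h5 : (G j)⁻¹ * x (Sum.inr (α j)) * D ≤ (G j)⁻¹ * M * |D| := by
      refine (le_abs_self _).trans ?_
      rw [abs_mul, abs_mul, abs_inv, abs_of_pos (hG j)]
      refine mul_le_mul_of_nonneg_right ?_ (abs_nonneg _)
      exact mul_le_mul_of_nonneg_left (hx j) (inv_nonneg.mpr (hG j).le)
    have h6 : 1 / 2 ≤ (G j)⁻¹ * M * |D| := h4.trans h5
    rw [div_le_iff₀ (by linarith only [hM])]
    have h7 : G j * (1 / 2) ≤ G j * ((G j)⁻¹ * M * |D|) := mul_le_mul_of_nonneg_left h6 (hG j).le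
    have h8 : G j * ((G j)⁻¹ * M * |D|) = M * |D| := by
      field_simp [(hG j).ne']
    rw [h8] at h7
    linarith only [h7]

theorem volume_implicit_le' {d : ℕ} (f : μ → MvPolynomial μ ℝ)
    (hf : ∀ i, (f i).totalDegree ≤ d) (θ : μ → ℝ) (hθ : ∀ k, 0 ≤ θ k) {G : ℝ} (hG : 0 < G) :
    volume {x : μ → ℝ | (∀ k, |eval x (f k)| ≤ θ k) ∧ G ≤ |(jac f x).det|} ≤
      ENNReal.ofReal (((d : ℝ) + 1) ^ Fintype.card μ * (∏ k, (2 * θ k)) / G) := by
  have h1 := volume_implicit_le f hf θ G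
  have h2 : (((d + 1) ^ Fintype.card μ : ℕ) : ENNReal) * ∏ k, ENNReal.ofReal (2 * θ k) =
      ENNReal.ofReal (((d : ℝ) + 1) ^ Fintype.card μ * (∏ k, (2 * θ k))) := by
    rw [ENNReal.ofReal_mul (by positivity), ENNReal.ofReal_prod_of_nonneg]
    · congr 1
      rw [← ENNReal.ofReal_natCast]
      congr 1
      push_cast
      rfl
    · intro k _
      have := hθ k
      linarith only [this]
  rw [h2] at h1
  rw [ENNReal.ofReal_div_of_pos hG, ENNReal.le_div_iff_mul_le (Or.inl ?_) (Or.inl ?_), mul_comm]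
  · exact h1
  · exact (ENNReal.ofReal_pos.mpr hG).ne'
  · exact ENNReal.ofReal_ne_top

/-- the constant of the counting theorem for implicit equations -/
noncomputable def impC (n d : ℕ) : ℝ :=
  ((2 * ((n + 1) * d + 1) + 1) ^ (n + (n + (n + 1))) : ℕ) * ((d : ℝ) + 1) ^ n *
    (2 * (((4 * (n + (n + 1)) + 1 : ℕ) : ℝ) * (((n + 1) * n + 1 : ℕ) : ℝ))) ^ n *
    (2 * ((2 * (n + (n + 1)) + 2 : ℕ) : ℝ))

theorem impC_nonneg (n d : ℕ) : 0 ≤ impC n d := by
  unfold impC
  positivity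

theorem real_of_ennreal {N : ℕ} {δ : ℝ} {n : ℕ} (hδ : 0 < δ) {B : ℝ} (hB : 0 ≤ B)
    (h : (N : ENNReal) * ENNReal.ofReal δ ^ n ≤ ENNReal.ofReal B) : (N : ℝ) * δ ^ n ≤ B := by
  have h1 : (N : ENNReal) * ENNReal.ofReal δ ^ n = ENNReal.ofReal ((N : ℝ) * δ ^ n) := by
    rw [ENNReal.ofReal_mul (Nat.cast_nonneg _), ENNReal.ofReal_natCast, ENNReal.ofReal_pow hδ.le]
  rw [h1] at h
  exact (ENNReal.ofReal_le_ofReal_iff hB).mp h

theorem sum_volume_le {d : ℕ} (F : J → μ → MvPolynomial μ ℝ)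
    (hF : ∀ j k, (F j k).totalDegree ≤ d) (θ : J → μ → ℝ) (hθ : ∀ j k, 0 < θ j k) (G : J → ℝ)
    (hG : ∀ j, 0 < G j) (c : J → ℝ) (hc : ∀ j, 0 ≤ c j) (E : J → Set (μ → ℝ)) {κ M : ℝ}
    (hκ : 0 < κ) (hM : 0 < M) (N : ℕ)
    (hE : ∀ j, ∀ x ∈ E j, (∀ k, |eval x (F j k)| ≤ κ * θ j k) ∧ G j / (2 * M) ≤ |(jac (F j) x).det|) :
    (N : ENNReal) * ∑ j, ENNReal.ofReal (c j) * volume (E j) ≤
      ENNReal.ofReal ((N : ℝ) * ((d : ℝ) + 1) ^ Fintype.card μ * (2 * κ) ^ Fintype.card μ * (2 * M) *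
        ∑ j, c j * (∏ k, θ j k) / G j) := by
  have h1 : ∀ j, ENNReal.ofReal (c j) * volume (E j) ≤
      ENNReal.ofReal (c j * (((d : ℝ) + 1) ^ Fintype.card μ * (∏ k, (2 * (κ * θ j k))) /
        (G j / (2 * M)))) := by
    intro j
    rw [ENNReal.ofReal_mul (hc j)]
    refine mul_le_mul_right ?_ _
    refine (measure_mono (hE j)).trans ?_
    refine volume_implicit_le' (F j) (hF j) (fun k => κ * θ j k) (fun k => ?_) ?_
    · exact (mul_pos hκ (hθ j k)).le
    · exact div_pos (hG j) (by linarith only [hM])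
  have h2 : ∀ j, 0 ≤ c j * (((d : ℝ) + 1) ^ Fintype.card μ * (∏ k, (2 * (κ * θ j k))) /
        (G j / (2 * M))) := by
    intro j
    refine mul_nonneg (hc j) (div_nonneg (mul_nonneg (by positivity) ?_) ?_)
    · exact Finset.prod_nonneg fun k _ => by
        have := mul_pos hκ (hθ j k)
        linarith only [this]
    · exact (div_pos (hG j) (by linarith)).le
  refine (mul_le_mul_right (Finset.sum_le_sum fun j _ => h1 j) _).trans (le_of_eq ?_)
  rw [← ENNReal.ofReal_sum_of_nonneg fun j _ => h2 j, ← ENNReal.ofReal_natCast,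
    ← ENNReal.ofReal_mul (Nat.cast_nonneg _)]
  congr 1
  rw [Finset.mul_sum, Finset.mul_sum]
  refine Finset.sum_congr rfl fun j _ => ?_
  have h3 : ∏ k, (2 * (κ * θ j k)) = (2 * κ) ^ Fintype.card μ * ∏ k, θ j k := by
    rw [← Finset.card_univ, ← Finset.prod_const, ← Finset.prod_mul_distrib]
    refine Finset.prod_congr rfl fun k _ => ?_
    ring
  rw [h3]
  have := (hG j).ne'
  field_simp

/-- **Counting directions of implicit germs.**  `F j` is a system of `m` polynomial equations for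
the position at the time `t j`; all lines with directions near `𝓓` satisfy `|F j k| ≤ θ j k` and
have Jacobian determinant at least `G j`. -/
theorem card_implicit_le {d : ℕ} (hd : 1 ≤ d) {R : ℝ}
    (F : Fin (Fintype.card μ + 1) → μ → MvPolynomial μ ℝ)
    (hF : ∀ j k, (F j k).totalDegree ≤ d)
    (θ : Fin (Fintype.card μ + 1) → μ → ℝ) (hθ : ∀ j k, 0 < θ j k)
    (G : Fin (Fintype.card μ + 1) → ℝ) (hG : ∀ j, 0 < G j)
    (t : Fin (Fintype.card μ + 1) → ℝ) (ht : Function.Injective t)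
    (𝓓 : Finset (μ → ℝ)) {δ : ℝ} (hδ : 0 < δ)
    (hsep : ∀ D ∈ 𝓓, ∀ D' ∈ 𝓓, D ≠ D' → δ ≤ dist D D')
    (hline : ∀ D ∈ 𝓓, ∀ D' : μ → ℝ, dist D' D < δ / 2 → ‖D'‖ ≤ R ∧
      ∃ U : μ → ℝ, ‖U‖ ≤ 1 ∧ ∀ j, (∀ k, |eval (fun i => U i + t j * D' i) (F j k)| ≤ θ j k) ∧
        G j ≤ |(jac (F j) (fun i => U i + t j * D' i)).det|) :
    (𝓓.card : ℝ) * δ ^ Fintype.card μ ≤
      impC (Fintype.card μ) d * ∑ j, wt t j * (∏ k, θ j k) / G j := by
  classical
  set L : Fin (Fintype.card μ + 1) → μ → MvPolynomial (μ ⊕ (μ ⊕ Fin (Fintype.card μ + 1))) ℝ :=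
    fun j k => X (Sum.inr (Sum.inl k)) + C (t j) * X (Sum.inl k) with hLdef
  have hLdeg : ∀ j k, (L j k).totalDegree ≤ 1 := by
    intro j k
    refine (totalDegree_add _ _).trans (max_le ?_ ?_)
    · simp only [totalDegree_X, le_refl]
    · refine (totalDegree_mul _ _).trans ?_
      simp only [totalDegree_C, totalDegree_X, zero_add, le_refl]
  have hcard : Fintype.card (μ ⊕ Fin (Fintype.card μ + 1)) = Fintype.card μ + (Fintype.card μ + 1) := by
    rw [Fintype.card_sum, Fintype.card_fin]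
  set K : ℝ := 4 * (Fintype.card (μ ⊕ Fin (Fintype.card μ + 1)) : ℝ) + 1 with hK
  have hK1 : 1 ≤ K := by
    have : (0 : ℝ) ≤ (Fintype.card (μ ⊕ Fin (Fintype.card μ + 1)) : ℝ) := Nat.cast_nonneg _
    linarith
  set T : ℝ := (((Fintype.card μ + 1) * Fintype.card μ + 1 : ℕ) : ℝ) with hT
  have hT1 : 1 ≤ T := by
    rw [hT]; exact_mod_cast Nat.succ_le_succ (Nat.zero_le _)
  set M : ℝ := 2 * (Fintype.card (μ ⊕ Fin (Fintype.card μ + 1)) : ℝ) + 2 with hM
  have hM0 : 0 < M := by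
    have : (0 : ℝ) ≤ (Fintype.card (μ ⊕ Fin (Fintype.card μ + 1)) : ℝ) := Nat.cast_nonneg _
    linarith
  set P := impP L (fun j => (Sum.inr j : μ ⊕ Fin (Fintype.card μ + 1))) F θ G T⁻¹ (4 * K) with hP
  have hPe : ∀ (D : μ → ℝ) (A : μ ⊕ Fin (Fintype.card μ + 1) → ℝ) (j : Fin (Fintype.card μ + 1)),
      (fun i => eval (Sum.elim D A) (L j i)) = fun i => A (Sum.inl i) + t j * D i := by
    intro D A j
    funext i
    simp [hLdef]
  set d' : ℕ := 2 * ((Fintype.card μ + 1) * d + 1) with hd'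
  have hmain := volume_directions_le (d := d') (by omega) P
    (totalDegree_impP_le hd L _ F θ G _ _ hLdeg hF)
    (impP_nonneg L _ F θ G (by positivity) (by positivity))
    (fun k => (X (Sum.inl k) : MvPolynomial (μ ⊕ Fin (Fintype.card μ + 1)) ℝ))
    (fun k => by rw [totalDegree_X]; omega) t ht (Metric.closedBall 0 R)
    Metric.isClosed_closedBall.measurableSet
  have hsw := sum_volume_le F hF θ hθ G hG (wt t) (wt_nonneg t)
    (fun j => swept P (fun k => (X (Sum.inl k) : MvPolynomial (μ ⊕ Fin (Fintype.card μ + 1)) ℝ))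
      (Metric.closedBall 0 R) (t j)) (κ := K * T) (M := M) (by positivity) hM0
    ((d' + 1) ^ (Fintype.card μ + Fintype.card (μ ⊕ Fin (Fintype.card μ + 1)))) (by
      rintro j x ⟨D, hD, A, hA, hPA, hx⟩
      have hx' : x = fun i => A (Sum.inl i) + t j * D i := by
        funext i
        rw [hx i, eval_X]
      have h1 := of_impP_le L (fun j => (Sum.inr j : μ ⊕ Fin (Fintype.card μ + 1))) F θ hθ G hG
        (τ := T⁻¹) (Λ := 4 * K) (K := K) (M := M) (by positivity) rfl hK1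
        (by rw [div_inv_eq_mul]; nlinarith) (Sum.elim D A) hM0
        (fun j => by
          simp only [Sum.elim_inr]
          exact (norm_le_pi_norm A _).trans hA) hPA j
      rw [hPe, ← hx', div_inv_eq_mul] at h1
      exact h1)
  have hfin := (card_mul_le_volume 𝓓 hδ hsep _ ?_).trans (hmain.trans hsw)
  · have h0 := real_of_ennreal hδ ?_ hfin
    · refine h0.trans (le_of_eq ?_)
      rw [impC]
      have e1 : K = ((4 * (Fintype.card μ + (Fintype.card μ + 1)) + 1 : ℕ) : ℝ) := by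
        rw [hK, hcard]; push_cast; ring
      have e2 : M = ((2 * (Fintype.card μ + (Fintype.card μ + 1)) + 2 : ℕ) : ℝ) := by
        rw [hM, hcard]; push_cast; ring
      rw [← e1, ← e2, ← hT, hcard]
    · refine mul_nonneg (by positivity) ?_
      refine Finset.sum_nonneg fun j _ => ?_
      refine div_nonneg (mul_nonneg (wt_nonneg t j) ?_) (hG j).le
      exact Finset.prod_nonneg fun k _ => (hθ j k).le
  · intro D hD D' hD'
    rw [Metric.mem_ball] at hD'
    obtain ⟨h1, U, hU, hU2⟩ := hline D hD D' hD'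
    refine ⟨?_, Sum.elim U (fun j => G j / (jac (F j) (fun i => U i + t j * D' i)).det), ?_, ?_⟩
    · rw [mem_closedBall_zero_iff]; exact h1
    · rw [pi_norm_le_iff_of_nonneg zero_le_one]
      rintro (i | j)
      · simp only [Sum.elim_inl]
        exact (norm_le_pi_norm U i).trans hU
      · simp only [Sum.elim_inr]
        have h2 := (hU2 j).2
        have h3 : 0 < |(jac (F j) (fun i => U i + t j * D' i)).det| := (hG j).trans_le h2
        rw [Real.norm_eq_abs, abs_div, abs_of_pos (hG j), div_le_one h3]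
        exact h2
    · refine impP_le_one L _ F θ hθ G (by positivity) ?_ _ ?_ ?_
      · rw [Fintype.card_fin, inv_mul_le_iff₀ (by positivity), mul_one, hT]
        push_cast
        linarith only
      · intro j k
        rw [hPe]
        simp only [Sum.elim_inl]
        exact (hU2 j).1 k
      · intro j
        rw [hPe]
        simp only [Sum.elim_inl, Sum.elim_inr]
        have h2 := (hU2 j).2
        have h3 : 0 < |(jac (F j) (fun i => U i + t j * D' i)).det| := (hG j).trans_le h2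
        have h4 : (jac (F j) (fun i => U i + t j * D' i)).det ≠ 0 := abs_pos.mp h3
        have h5 := (hG j).ne'
        field_simp

/-- **Counting positions of lines of implicit germs.**  The same at a finite time: `s j` are the
times of the equations relative to the time of the positions `y`; the velocities range over the
box `V₀ + c [-1, 1]^m`. -/
theorem card_implicit_slice_le {d : ℕ} (hd : 1 ≤ d) {R : ℝ}
    (F : Fin (Fintype.card μ + 1) → μ → MvPolynomial μ ℝ)
    (hF : ∀ j k, (F j k).totalDegree ≤ d)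
    (θ : Fin (Fintype.card μ + 1) → μ → ℝ) (hθ : ∀ j k, 0 < θ j k)
    (G : Fin (Fintype.card μ + 1) → ℝ) (hG : ∀ j, 0 < G j)
    (s : Fin (Fintype.card μ + 1) → ℝ) (hs : Function.Injective s)
    (V₀ : μ → ℝ) (c : ℝ)
    (𝒴 : Finset (μ → ℝ)) {δ : ℝ} (hδ : 0 < δ)
    (hsep : ∀ y ∈ 𝒴, ∀ y' ∈ 𝒴, y ≠ y' → δ ≤ dist y y')
    (hline : ∀ y ∈ 𝒴, ∀ y' : μ → ℝ, dist y' y < δ / 2 → ‖y'‖ ≤ R ∧
      ∃ A : μ → ℝ, ‖A‖ ≤ 1 ∧ ∀ j,
        (∀ k, |eval (fun i => y' i + s j * (V₀ i + c * A i)) (F j k)| ≤ θ j k) ∧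
        G j ≤ |(jac (F j) (fun i => y' i + s j * (V₀ i + c * A i))).det|) :
    (𝒴.card : ℝ) * δ ^ Fintype.card μ ≤
      impC (Fintype.card μ) d * ∑ j, wz s j * (∏ k, θ j k) / G j := by
  classical
  set L : Fin (Fintype.card μ + 1) → μ →
      MvPolynomial (μ ⊕ (μ ⊕ Fin (Fintype.card μ + 1))) ℝ :=
    fun j k => X (Sum.inl k) + C (s j) * (C (V₀ k) + C c * X (Sum.inr (Sum.inl k))) with hLdef
  have hLdeg : ∀ j k, (L j k).totalDegree ≤ 1 := by
    intro j k
    refine (totalDegree_add _ _).trans (max_le ?_ ?_)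
    · simp only [totalDegree_X, le_refl]
    · refine (totalDegree_mul _ _).trans ?_
      rw [totalDegree_C, zero_add]
      refine (totalDegree_add _ _).trans (max_le ?_ ?_)
      · simp
      · refine (totalDegree_mul _ _).trans ?_
        simp only [totalDegree_C, totalDegree_X, zero_add, le_refl]
  have hcard : Fintype.card (μ ⊕ Fin (Fintype.card μ + 1)) =
      Fintype.card μ + (Fintype.card μ + 1) := by
    rw [Fintype.card_sum, Fintype.card_fin]
  set K : ℝ := 4 * (Fintype.card (μ ⊕ Fin (Fintype.card μ + 1)) : ℝ) + 1 with hK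
  have hK1 : 1 ≤ K := by
    have : (0 : ℝ) ≤ (Fintype.card (μ ⊕ Fin (Fintype.card μ + 1)) : ℝ) := Nat.cast_nonneg _
    linarith
  set T : ℝ := (((Fintype.card μ + 1) * Fintype.card μ + 1 : ℕ) : ℝ) with hT
  have hT1 : 1 ≤ T := by
    rw [hT]; exact_mod_cast Nat.succ_le_succ (Nat.zero_le _)
  set M : ℝ := 2 * (Fintype.card (μ ⊕ Fin (Fintype.card μ + 1)) : ℝ) + 2 with hM
  have hM0 : 0 < M := by
    have : (0 : ℝ) ≤ (Fintype.card (μ ⊕ Fin (Fintype.card μ + 1)) : ℝ) := Nat.cast_nonneg _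
    linarith
  set P := impP L (fun j => (Sum.inr j : μ ⊕ Fin (Fintype.card μ + 1))) F θ G T⁻¹ (4 * K) with hP
  have hPe : ∀ (y : μ → ℝ) (A : μ ⊕ Fin (Fintype.card μ + 1) → ℝ) (j : Fin (Fintype.card μ + 1)),
      (fun i => eval (Sum.elim y A) (L j i)) =
        fun i => y i + s j * (V₀ i + c * A (Sum.inl i)) := by
    intro y A j
    funext i
    simp [hLdef]
  set d' : ℕ := 2 * ((Fintype.card μ + 1) * d + 1) with hd'
  have hVdeg : ∀ k, ((C (V₀ k) + C c * X (Sum.inl k) :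
      MvPolynomial (μ ⊕ Fin (Fintype.card μ + 1)) ℝ)).totalDegree ≤ d' := by
    intro k
    refine (totalDegree_add _ _).trans (max_le ?_ ?_)
    · simp
    · refine (totalDegree_mul _ _).trans ?_
      simp only [totalDegree_C, totalDegree_X, zero_add]
      omega
  have hmain := volume_slice_le (d := d') (by omega) P
    (totalDegree_impP_le hd L _ F θ G _ _ hLdeg hF)
    (impP_nonneg L _ F θ G (by positivity) (by positivity))
    (fun k => (C (V₀ k) + C c * X (Sum.inl k) : MvPolynomial (μ ⊕ Fin (Fintype.card μ + 1)) ℝ))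
    hVdeg s hs (Metric.closedBall 0 R) Metric.isClosed_closedBall.measurableSet
  have hsw := sum_volume_le F hF θ hθ G hG (wz s) (wz_nonneg s)
    (fun j => sweptS P (fun k => (C (V₀ k) + C c * X (Sum.inl k) :
      MvPolynomial (μ ⊕ Fin (Fintype.card μ + 1)) ℝ))
      (Metric.closedBall 0 R) (s j)) (κ := K * T) (M := M) (by positivity) hM0
    ((d' + 1) ^ (Fintype.card μ + Fintype.card (μ ⊕ Fin (Fintype.card μ + 1)))) (by
      rintro j x ⟨y, hy, A, hA, hPA, hx⟩
      have hx' : x = fun i => y i + s j * (V₀ i + c * A (Sum.inl i)) := by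
        funext i
        rw [hx i]
        simp
      have h1 := of_impP_le L (fun j => (Sum.inr j : μ ⊕ Fin (Fintype.card μ + 1))) F θ hθ G hG
        (τ := T⁻¹) (Λ := 4 * K) (K := K) (M := M) (by positivity) rfl hK1
        (by rw [div_inv_eq_mul]; nlinarith) (Sum.elim y A) hM0
        (fun j => by
          simp only [Sum.elim_inr]
          exact (norm_le_pi_norm A _).trans hA) hPA j
      rw [hPe, ← hx', div_inv_eq_mul] at h1
      exact h1)
  have hfin := (card_mul_le_volume 𝒴 hδ hsep _ ?_).trans (hmain.trans hsw)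
  · have h0 := real_of_ennreal hδ ?_ hfin
    · refine h0.trans (le_of_eq ?_)
      rw [impC]
      have e1 : K = ((4 * (Fintype.card μ + (Fintype.card μ + 1)) + 1 : ℕ) : ℝ) := by
        rw [hK, hcard]; push_cast; ring
      have e2 : M = ((2 * (Fintype.card μ + (Fintype.card μ + 1)) + 2 : ℕ) : ℝ) := by
        rw [hM, hcard]; push_cast; ring
      rw [← e1, ← e2, ← hT, hcard]
    · refine mul_nonneg (by positivity) ?_
      refine Finset.sum_nonneg fun j _ => ?_
      refine div_nonneg (mul_nonneg (wz_nonneg s j) ?_) (hG j).le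
      exact Finset.prod_nonneg fun k _ => (hθ j k).le
  · intro y hy y' hy'
    rw [Metric.mem_ball] at hy'
    obtain ⟨h1, U, hU, hU2⟩ := hline y hy y' hy'
    refine ⟨?_, Sum.elim U
      (fun j => G j / (jac (F j) (fun i => y' i + s j * (V₀ i + c * U i))).det), ?_, ?_⟩
    · rw [mem_closedBall_zero_iff]; exact h1
    · rw [pi_norm_le_iff_of_nonneg zero_le_one]
      rintro (i | j)
      · simp only [Sum.elim_inl]
        exact (norm_le_pi_norm U i).trans hU
      · simp only [Sum.elim_inr]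
        have h2 := (hU2 j).2
        have h3 : 0 < |(jac (F j) (fun i => y' i + s j * (V₀ i + c * U i))).det| :=
          (hG j).trans_le h2
        rw [Real.norm_eq_abs, abs_div, abs_of_pos (hG j), div_le_one h3]
        exact h2
    · refine impP_le_one L _ F θ hθ G (by positivity) ?_ _ ?_ ?_
      · rw [Fintype.card_fin, inv_mul_le_iff₀ (by positivity), mul_one, hT]
        push_cast
        linarith only
      · intro j k
        rw [hPe]
        simp only [Sum.elim_inl]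
        exact (hU2 j).1 k
      · intro j
        rw [hPe]
        simp only [Sum.elim_inl, Sum.elim_inr]
        have h2 := (hU2 j).2
        have h3 : 0 < |(jac (F j) (fun i => y' i + s j * (V₀ i + c * U i))).det| :=
          (hG j).trans_le h2
        have h4 : (jac (F j) (fun i => y' i + s j * (V₀ i + c * U i))).det ≠ 0 := abs_pos.mp h3
        have h5 := (hG j).ne'
        field_simp

end Pool.Agent.H50.PW
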