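import Pool.Agent.H98.PW.Stmts

/-!
# PW, row CLS: choice of a prime and of a class
-/

set_option autoImplicit false

namespace Pool.PW

open Finset Filter MvPolynomial Pool.Agent.H98.ABCR

theorem cls_thm : S_CLS := by
  classical
  intro n B PP T N hPP hT
  rcases T.eq_empty_or_nonempty with hTe | hTne
  · refine ⟨0, ∅, fun h => absurd hTe h.ne_empty, Finset.empty_subset _, ?_, ?_⟩
    · simp [hTe]
    · intro x hx
      exact absurd hx (Finset.notMem_empty x)
  have hch : ∀ x : Fin n → ℕ, ∃ p : ℕ, x ∈ T → p ∈ PP ∧ ¬ (p : ℤ) ∣ N x := by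
    intro x
    by_cases hx : x ∈ T
    · obtain ⟨p, h1, h2⟩ := hT x hx
      exact ⟨p, fun _ => ⟨h1, h2⟩⟩
    · exact ⟨0, fun h => absurd h hx⟩
  choose q hq using hch
  set t : Finset (ℕ × (Fin n → ℕ)) := PP ×ˢ Fintype.piFinset (fun _ : Fin n => range B) with ht
  set f : (Fin n → ℕ) → ℕ × (Fin n → ℕ) := fun x => (q x, fun k => x k % q x) with hf
  have hmaps : ∀ x ∈ T, f x ∈ t := by
    intro x hx
    obtain ⟨h1, h2⟩ := hq x hx
    obtain ⟨h3, h4⟩ := hPP _ h1
    rw [ht, Finset.mem_product]
    refine ⟨h1, ?_⟩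
    rw [Fintype.mem_piFinset]
    intro k
    rw [Finset.mem_range]
    exact lt_of_lt_of_le (Nat.mod_lt _ h3) h4
  have htne : t.Nonempty := by
    obtain ⟨x, hx⟩ := hTne
    exact ⟨f x, hmaps x hx⟩
  obtain ⟨b, hb, hmax⟩ := Finset.exists_max_image t (fun b => (T.filter (fun x => f x = b)).card)
    htne
  have hcard : T.card ≤ (T.filter (fun x => f x = b)).card * t.card :=
    Finset.card_le_mul_card_image_of_maps_to hmaps _ hmax
  have htc : t.card = PP.card * B ^ n := by
    rw [ht, Finset.card_product, Fintype.card_piFinset]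
    simp
  refine ⟨b.1, T.filter (fun x => f x = b), ?_, Finset.filter_subset _ _, ?_, ?_⟩
  · intro _
    rw [ht, Finset.mem_product] at hb
    exact hb.1
  · rw [← htc, mul_comm]
    exact hcard
  · intro x hx
    rw [Finset.mem_filter] at hx
    have e1 : q x = b.1 := congrArg Prod.fst hx.2
    refine ⟨?_, ?_⟩
    · rw [← e1]
      exact (hq x hx.1).2
    · intro y hy k
      rw [Finset.mem_filter] at hy
      have e2 : q y = b.1 := congrArg Prod.fst hy.2
      have e3 : (fun k => x k % q x) = b.2 := congrArg Prod.snd hx.2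
      have e4 : (fun k => y k % q y) = b.2 := congrArg Prod.snd hy.2
      have e5 : x k % b.1 = y k % b.1 := by
        have h1 := congrFun e3 k
        have h2 := congrFun e4 k
        simp only [e1] at h1
        simp only [e2] at h2
        rw [h1, h2]
      exact (Nat.modEq_iff_dvd.mp (show y k ≡ x k [MOD b.1] from e5.symm))

end Pool.PW
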